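import Pool.Agent.H79.MC.Op

/-!
# Row Adc: sigma-centered posets, families of `ℵ₁` dense sets, almost disjoint sets

`pres_of_centered`.  Let `S` be stationary, `f` a name, `p` a condition.  For `ξ : W1` let
`V ξ = {η | ∃ q, f.R ξ q η}`.  It is countable: for `η ∈ V ξ` choose `q η` with
`f.R ξ (q η) η`; the map `η ↦ σ (q η)` is injective on `V ξ`, because `σ (q η) = σ (q η')` gives
`r ≤ q η, q η'`, so `f.R ξ r η`, `f.R ξ r η'` (`f.down`) and `η = η'` (`f.uniq`); and `T` is
countable.  By `stat_meets` and `clb_cp V` there is `δ ∈ S` with `η < δ` for all `η ∈ V ξ`,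
`ξ < δ`.  Then `q = p` works: for `ξ < δ`, `r ≤ p` take `r' ≤ r` and `η` with `f.R ξ r' η`
(`f.dense`); `η ∈ V ξ`.

`mm_fam`.  If `J` is empty, take `F = {q | p0 ≤ q}` for some `p0 : P`.  Otherwise there is a
surjection `s : W1 → J` (`#J ≤ ℵ₁ = #W1`, `card_W1`; e.g. `Cardinal.le_def` gives an injection
`J → W1` and `Function.invFun`, or `Cardinal.mk_le_iff_exists...`), apply `hMM` to
`fun ξ => D (s ξ)`.

`ad_family`.  `#W1 = ℵ₁ ≤ 2 ^ ℵ₀ = #(ℕ → Bool)` gives an injection `r : W1 → ℕ → Bool`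
(`aleph_one_le_continuum`; `mk_bool`).  `List Bool` is countable and infinite; let
`e : List Bool → ℕ` be an injection (`Encodable.encode`).  Let
`A α = {m | ∃ n : ℕ, e (List.ofFn fun i : Fin n => r α i) = m}`.  It is infinite: the map
`n ↦ e (List.ofFn ..)` is injective (lengths).  For `α ≠ β`, `r α k ≠ r β k` for some `k`, and a
common element `e (List.ofFn fun i : Fin n => r α i) = e (List.ofFn fun i : Fin n' => r β i)`
has `n = n'` (lengths) and `n ≤ k`, so `A α ∩ A β` is contained in the finite set of the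
`e (List.ofFn fun i : Fin n => r α i)`, `n ≤ k`.
-/

namespace Pool.Agent.H79.MC

open Cardinal Ordinal Set
open Pool.Agent.Results.MP_4b9105_lc.CanonicalBounding

theorem pres_of_centered (P : Type) [Preorder P] (T : Type) [Countable T] (σ : P → T)
    (hσ : ∀ p q, σ p = σ q → ∃ r, r ≤ p ∧ r ≤ q) : PresStat P := by
  intro S hS f p
  have hV : ∀ ξ : W1, ({η | ∃ q, f.R ξ q η} : Set W1).Countable := by
    intro ξ
    have hq : ∀ η : {η | ∃ q, f.R ξ q η}, ∃ q, f.R ξ q η.1 := fun η => η.2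
    choose q hq' using hq
    have hinj : Function.Injective (fun η : {η | ∃ q, f.R ξ q η} => σ (q η)) := by
      intro η η' h
      obtain ⟨r, h1, h2⟩ := hσ _ _ h
      exact Subtype.ext (f.uniq ξ r _ _ (f.down ξ _ _ _ (hq' η) h1) (f.down ξ _ _ _ (hq' η') h2))
    have hc : Countable {η | ∃ q, f.R ξ q η} := hinj.countable
    exact Set.countable_coe_iff.1 hc
  obtain ⟨δ, hδ, -, hδ2⟩ := stat_meets hS (clb_cp _ hV)
  refine ⟨p, le_rfl, δ, hδ, fun ξ hξ r _ => ?_⟩
  obtain ⟨r', hr', η, hη⟩ := f.dense ξ r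
  exact ⟨r', hr', η, hδ2 ξ hξ η ⟨r', hη⟩, hη⟩

theorem mm_fam (hMM : MMc) (P : Type) [PartialOrder P] [Nonempty P] (hP : #P ≤ 2 ^ ℵ₀)
    (hpres : PresStat P) (J : Type) (hJ : #J ≤ ℵ₁) (D : J → Set P)
    (hD : ∀ j p, ∃ q ∈ D j, q ≤ p) : ∃ F : Set P, IsFilt P F ∧ ∀ j, ∃ p ∈ F, p ∈ D j := by
  rcases isEmpty_or_nonempty J with hJe | hJn
  · obtain ⟨p0⟩ := ‹Nonempty P›
    refine ⟨{q | p0 ≤ q}, ⟨⟨p0, le_rfl⟩, ?_, ?_⟩, fun j => (hJe.false j).elim⟩
    · intro p hp q hpq
      exact le_trans hp hpq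
    · intro p hp q hq
      exact ⟨p0, le_rfl, hp, hq⟩
  · rw [← card_W1] at hJ
    obtain ⟨e⟩ := hJ
    have hs : Function.Surjective (Function.invFun e) := Function.invFun_surjective e.injective
    obtain ⟨F, hF, hF2⟩ := hMM P hP hpres (fun ξ => D (Function.invFun e ξ))
      (fun ξ p => hD _ p)
    refine ⟨F, hF, fun j => ?_⟩
    obtain ⟨ξ, hξ⟩ := hs j
    obtain ⟨p, hp, hp2⟩ := hF2 ξ
    refine ⟨p, hp, ?_⟩
    rw [← hξ]
    exact hp2

theorem ad_family : ∃ A : W1 → Set ℕ, (∀ α, (A α).Infinite) ∧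
    ∀ α β, α ≠ β → (A α ∩ A β).Finite := by
  have h1 : #W1 ≤ #(ℕ → Bool) := by
    rw [card_W1]
    have h2 : #(ℕ → Bool) = 𝔠 := by
      rw [← Cardinal.power_def, Cardinal.mk_bool, Cardinal.mk_nat, Cardinal.two_power_aleph0]
    rw [h2]
    exact Cardinal.aleph_one_le_continuum
  obtain ⟨r⟩ := h1
  have hlen : ∀ (α β : W1) (n n' : ℕ),
      Encodable.encode (List.ofFn fun i : Fin n => r α i) =
        Encodable.encode (List.ofFn fun i : Fin n' => r β i) → n = n' := by
    intro α β n n' h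
    have h3 := congrArg List.length (Encodable.encode_injective h)
    rwa [List.length_ofFn, List.length_ofFn] at h3
  refine ⟨fun α => {m | ∃ n : ℕ, Encodable.encode (List.ofFn fun i : Fin n => r α i) = m},
    fun α => ?_, fun α β hαβ => ?_⟩
  · have h2 : Function.Injective
        (fun n : ℕ => Encodable.encode (List.ofFn fun i : Fin n => r α i)) :=
      fun n n' h => hlen α α n n' h
    exact Set.infinite_range_of_injective h2
  · have h2 : ∃ k : ℕ, r α k ≠ r β k := by
      by_contra h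
      push Not at h
      exact hαβ (r.injective (funext h))
    obtain ⟨k, hk⟩ := h2
    refine ((Set.finite_Iic k).image
      (fun n : ℕ => Encodable.encode (List.ofFn fun i : Fin n => r α i))).subset ?_
    rintro m ⟨⟨n, hn⟩, ⟨n', hn'⟩⟩
    refine ⟨n, ?_, hn⟩
    have h3 : n = n' := hlen α β n n' (hn.trans hn'.symm)
    subst h3
    have h4 := List.ofFn_injective (Encodable.encode_injective (hn.trans hn'.symm))
    rw [Set.mem_Iic]
    by_contra h5
    push Not at h5
    exact hk (congrFun h4 ⟨k, h5⟩)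

end Pool.Agent.H79.MC
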