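import Pool.Agent.H79.MC.Adc

/-!
# Row Ade: almost disjoint coding, `2 ^ ℵ₁ = 2 ^ ℵ₀` under `MMc`

`ad_code`.  The poset is `Adp A B`.  It is nonempty (`⟨∅, ∅, _⟩`).  It has at most `2 ^ ℵ₀`
elements: `p ↦ (p.s, p.F)` is injective into `Finset ℕ × Finset W1`, and `#(Finset ℕ) = ℵ₀`,
`#(Finset W1) = ℵ₁` (`mk_finset_of_infinite`), `ℵ₁ ≤ 2 ^ ℵ₀` (`aleph_one_le_continuum`).  It
preserves stationary sets by `pres_of_centered` with `T = Finset ℕ`, `σ p = p.s`: if `p.s = q.s`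
then `⟨p.s, p.F ∪ q.F, _⟩` is below both (no new elements in `s`).
Let `J = W1 ⊕ (W1 × ℕ)` (`#J = ℵ₁`), `D (inl α) = {p | α ∈ B → α ∈ p.F}`,
`D (inr (α, n)) = {p | α ∉ B → ∃ t ∈ p.s, n ≤ t ∧ t ∈ A α}`.  Density: for `inl α`, `α ∈ B`: add
`α` to `F`.  For `inr (α, n)`, `α ∉ B`: `A α \ ⋃ β ∈ p.F, A β` is infinite (each `A α ∩ A β` is
finite as `β ∈ B`, `β ≠ α`), so it has an element `t ≥ n` (`Set.Infinite.exists_gt` or
`Set.Infinite.exists_notMem_finset`); `⟨insert t p.s, p.F, _⟩ ≤ p`.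
Let `F` be the filter of `mm_fam` and `X = {t | ∃ p ∈ F, t ∈ p.s}`.  If `α ∈ B`, take `p ∈ F`
with `α ∈ p.F`.  `X ∩ A α ⊆ p.s`: for `t ∈ X ∩ A α`, `t ∈ q.s`, `q ∈ F`, let `r ∈ F` be below
`p` and `q`; `t ∈ r.s`, `t ∈ A α`, so `t ∈ p.s` (third clause of `r ≤ p`).  If `α ∉ B`, then
`X ∩ A α` has elements `≥ n` for every `n`, so it is infinite.

`two_pow`.  Take the family `A` of `ad_family` and for every `B : Set W1` the set `X B` of
`ad_code`.  The map `X` from `Set W1` to `Set ℕ` is injective, since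
`B = {α | (X B ∩ A α).Finite}`.  So `2 ^ ℵ₁ = #(Set W1) ≤ #(Set ℕ) = 2 ^ ℵ₀`.
-/

namespace Pool.Agent.H79.MC

open Cardinal Ordinal Set
open Pool.Agent.Results.MP_4b9105_lc.CanonicalBounding

/-- Conditions of the almost disjoint coding poset. -/
@[ext]
structure Adp (A : W1 → Set ℕ) (B : Set W1) where
  s : Finset ℕ
  F : Finset W1
  hF : ∀ α ∈ F, α ∈ B

instance (A : W1 → Set ℕ) (B : Set W1) : PartialOrder (Adp A B) where
  le q p := p.s ⊆ q.s ∧ p.F ⊆ q.F ∧ ∀ α ∈ p.F, ∀ t ∈ q.s, t ∈ A α → t ∈ p.s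
  le_refl p := ⟨fun _ h => h, fun _ h => h, fun _ _ _ ht _ => ht⟩
  le_trans r q p h h' := ⟨fun _ ht => h.1 (h'.1 ht), fun _ ht => h.2.1 (h'.2.1 ht),
    fun α hα t ht htA => h'.2.2 α hα t (h.2.2 α (h'.2.1 hα) t ht htA) htA⟩
  le_antisymm q p h h' := Adp.ext (Finset.Subset.antisymm h'.1 h.1)
    (Finset.Subset.antisymm h'.2.1 h.2.1)

theorem Adp.le_def {A : W1 → Set ℕ} {B : Set W1} {q p : Adp A B} :
    q ≤ p ↔ p.s ⊆ q.s ∧ p.F ⊆ q.F ∧ ∀ α ∈ p.F, ∀ t ∈ q.s, t ∈ A α → t ∈ p.s := Iff.rfl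

theorem ade_inf : Infinite W1 := by
  rw [Cardinal.infinite_iff, card_W1]
  exact aleph0_le_aleph 1

theorem ade_card (A : W1 → Set ℕ) (B : Set W1) : #(Adp A B) ≤ 2 ^ ℵ₀ := by
  have hinf : Infinite W1 := ade_inf
  have h1 : Function.Injective (fun p : Adp A B => (p.s, p.F)) := by
    intro p q h
    exact Adp.ext (congrArg Prod.fst h) (congrArg Prod.snd h)
  refine (mk_le_of_injective h1).trans ?_
  rw [mk_prod, Cardinal.lift_id, Cardinal.lift_id, mk_finset_of_infinite, mk_finset_of_infinite, card_W1,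
    mk_nat, two_power_aleph0]
  calc ℵ₀ * ℵ₁ ≤ 𝔠 * 𝔠 := mul_le_mul' aleph0_le_continuum aleph_one_le_continuum
    _ = 𝔠 := continuum_mul_self

theorem ade_cent (A : W1 → Set ℕ) (B : Set W1) (p q : Adp A B) (h : p.s = q.s) :
    ∃ r, r ≤ p ∧ r ≤ q := by
  classical
  refine ⟨⟨p.s, p.F ∪ q.F, ?_⟩, ?_, ?_⟩
  · intro α hα
    rcases Finset.mem_union.1 hα with h1 | h1
    · exact p.hF α h1
    · exact q.hF α h1
  · rw [Adp.le_def]
    exact ⟨Finset.Subset.refl _, Finset.subset_union_left, fun _ _ t ht _ => ht⟩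
  · rw [Adp.le_def]
    refine ⟨?_, Finset.subset_union_right, fun _ _ t ht _ => ?_⟩
    · show q.s ⊆ p.s
      rw [h]
    · rw [← h]
      exact ht

theorem ade_J : #(W1 ⊕ (W1 × ℕ)) ≤ ℵ₁ := by
  rw [mk_sum, mk_prod, Cardinal.lift_id, Cardinal.lift_id, Cardinal.lift_id, card_W1, mk_nat]
  refine add_le_of_le (aleph0_le_aleph 1) le_rfl ?_
  exact mul_le_of_le (aleph0_le_aleph 1) le_rfl (aleph0_le_aleph 1)

theorem ad_code (hMM : MMc) (A : W1 → Set ℕ) (hA : ∀ α, (A α).Infinite)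
    (hAA : ∀ α β, α ≠ β → (A α ∩ A β).Finite) (B : Set W1) :
    ∃ X : Set ℕ, ∀ α, (X ∩ A α).Finite ↔ α ∈ B := by
  classical
  have hne : Nonempty (Adp A B) := ⟨⟨∅, ∅, fun α h => absurd h (Finset.notMem_empty α)⟩⟩
  obtain ⟨F, hF, hFD⟩ := mm_fam hMM (Adp A B) (ade_card A B)
    (pres_of_centered (Adp A B) (Finset ℕ) (fun p => p.s) (ade_cent A B)) (W1 ⊕ (W1 × ℕ)) ade_J
    (Sum.elim (fun α => {p | α ∈ B → α ∈ p.F})
      (fun x => {p | x.1 ∉ B → ∃ t ∈ p.s, x.2 ≤ t ∧ t ∈ A x.1})) (by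
      rintro (α | ⟨α, n⟩) p
      · by_cases hα : α ∈ B
        · refine ⟨⟨p.s, insert α p.F, ?_⟩, fun _ => Finset.mem_insert_self _ _, ?_⟩
          · intro β hβ
            rcases Finset.mem_insert.1 hβ with h | h
            · rw [h]
              exact hα
            · exact p.hF β h
          · rw [Adp.le_def]
            exact ⟨Finset.Subset.refl _, Finset.subset_insert _ _, fun _ _ t ht _ => ht⟩
        · exact ⟨p, fun h => absurd h hα, le_rfl⟩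
      · by_cases hα : α ∈ B
        · exact ⟨p, fun h => absurd hα h, le_rfl⟩
        · have h1 : (⋃ β ∈ (p.F : Set W1), A α ∩ A β).Finite := by
            refine Set.Finite.biUnion p.F.finite_toSet fun β hβ => hAA α β ?_
            intro h
            rw [h] at hα
            exact hα (p.hF β (Finset.mem_coe.1 hβ))
          obtain ⟨t, ht, hnt⟩ := ((hA α).sdiff h1).exists_gt n
          refine ⟨⟨insert t p.s, p.F, p.hF⟩, fun _ => ⟨t, Finset.mem_insert_self _ _, hnt.le,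
            ht.1⟩, ?_⟩
          rw [Adp.le_def]
          refine ⟨Finset.subset_insert _ _, Finset.Subset.refl _, fun β hβ t' ht' htA => ?_⟩
          rcases Finset.mem_insert.1 ht' with h | h
          · exfalso
            apply ht.2
            rw [h] at htA
            exact mem_biUnion (Finset.mem_coe.2 hβ) ⟨ht.1, htA⟩
          · exact h)
  refine ⟨{t | ∃ p ∈ F, t ∈ p.s}, fun α => ⟨fun hfin => ?_, fun hα => ?_⟩⟩
  · by_contra hα
    refine Set.infinite_of_forall_exists_gt (fun n => ?_) hfin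
    obtain ⟨p, hp, hpD⟩ := hFD (Sum.inr (α, n + 1))
    obtain ⟨t, ht, hnt, htA⟩ := hpD hα
    exact ⟨t, ⟨⟨p, hp, ht⟩, htA⟩, hnt⟩
  · obtain ⟨p, hp, hpD⟩ := hFD (Sum.inl α)
    have hαp : α ∈ p.F := hpD hα
    refine Set.Finite.subset p.s.finite_toSet ?_
    rintro t ⟨⟨q, hq, htq⟩, htA⟩
    obtain ⟨r, hr, hrp, hrq⟩ := hF.2.2 p hp q hq
    rw [Adp.le_def] at hrp hrq
    exact Finset.mem_coe.2 (hrp.2.2 α hαp t (hrq.1 htq) htA)

theorem two_pow (hMM : MMc) : (2 : Cardinal.{0}) ^ ℵ₁ ≤ 2 ^ ℵ₀ := by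
  obtain ⟨A, hA, hAA⟩ := ad_family
  choose X hX using fun B => ad_code hMM A hA hAA B
  have hinj : Function.Injective X := by
    intro B B' h
    ext α
    rw [← hX B α, ← hX B' α, h]
  have h1 := mk_le_of_injective hinj
  rw [mk_set, mk_set, card_W1, mk_nat] at h1
  exact h1

end Pool.Agent.H79.MC
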