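import Pool.Agent.H79.MC.Defs

/-!
# Basic facts about closed unbounded and stationary subsets of `ω₁` (proved)
-/

namespace Pool.Agent.H79.MC

open Cardinal Ordinal Set
open Pool.Agent.Results.MP_4b9105_lc.CanonicalBounding

theorem exists_gt_W1 (β : W1) : ∃ α, β < α := by
  obtain ⟨b, hb⟩ := bdd_W1 {β} (countable_singleton _)
  exact ⟨b, hb β rfl⟩

theorem exists_gt2_W1 (β γ : W1) : ∃ α, β < α ∧ γ < α := by
  obtain ⟨b, hb⟩ := bdd_W1 {β, γ} ((countable_singleton _).insert _)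
  exact ⟨b, hb β (by simp), hb γ (by simp)⟩

theorem Clb.isClub {C : Set W1} (h : Clb C) : IsClub C where
  dirSupClosed := by
    intro d hd hne _ a ha
    by_contra hno
    refine hno (h.1 a ⟨?_, ?_⟩)
    · obtain ⟨x, hx⟩ := hne
      refine ⟨x, lt_of_le_of_ne (ha.1 hx) ?_⟩
      rintro rfl
      exact hno (hd hx)
    · intro β hβ
      obtain ⟨x, hx, hβx, hxa⟩ := ha.exists_between hβ
      refine ⟨x, hd hx, hβx, lt_of_le_of_ne hxa ?_⟩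
      rintro rfl
      exact hno (hd hx)
  isCofinal := by
    intro x
    obtain ⟨y, hy, hxy⟩ := h.2 x
    exact ⟨y, hy, hxy.le⟩

theorem clb_of_isClub {C : Set W1} (h : IsClub C) : Clb C := by
  refine ⟨fun δ hδ => ?_, fun β => ?_⟩
  · obtain ⟨β0, hβ0⟩ := hδ.1
    refine h.isLUB_mem (t := C ∩ Iio δ) inter_subset_left ?_ ?_
    · obtain ⟨α, hα, _, h2⟩ := hδ.2 β0 hβ0
      exact ⟨α, hα, h2⟩
    · refine ⟨fun x hx => le_of_lt hx.2, fun b hb => ?_⟩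
      by_contra! hlt
      obtain ⟨α, hα, h1, h2⟩ := hδ.2 b hlt
      exact absurd (hb ⟨hα, h2⟩) (not_le.2 h1)
  · obtain ⟨α, hα⟩ := exists_gt_W1 β
    obtain ⟨y, hy, h1⟩ := h.isCofinal α
    exact ⟨y, hy, hα.trans_le h1⟩

/-- Closure points of a function with countable values. -/
theorem clb_cp (F : W1 → Set W1) (hF : ∀ ζ, (F ζ).Countable) :
    Clb {ξ : W1 | (∃ ζ, ζ < ξ) ∧ ∀ ζ < ξ, ∀ η ∈ F ζ, η < ξ} :=
  clb_of_isClub (closure_points_club F hF)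

/-- Closure points of a function. -/
theorem clb_cf (F : W1 → W1) : Clb {ξ : W1 | (∃ ζ, ζ < ξ) ∧ ∀ ζ < ξ, F ζ < ξ} := by
  have h := clb_cp (fun ζ => {F ζ}) fun ζ => countable_singleton _
  have he : {ξ : W1 | (∃ ζ, ζ < ξ) ∧ ∀ ζ < ξ, ∀ η ∈ ({F ζ} : Set W1), η < ξ} =
      {ξ : W1 | (∃ ζ, ζ < ξ) ∧ ∀ ζ < ξ, F ζ < ξ} := by
    ext ξ
    simp
  rw [he] at h
  exact h

theorem stat_meets {S C : Set W1} (hS : IsStationary S) (hC : Clb C) : ∃ δ ∈ S, δ ∈ C := by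
  obtain ⟨δ, h1, h2⟩ := hS hC.isClub
  exact ⟨δ, h1, h2⟩

theorem not_stat {S : Set W1} (hS : ¬ IsStationary S) : ∃ C, Clb C ∧ ∀ δ ∈ S, δ ∉ C := by
  rw [not_isStationary_iff] at hS
  obtain ⟨t, ht, hd⟩ := hS
  exact ⟨t, clb_of_isClub ht, fun δ h1 h2 => disjoint_left.1 hd h1 h2⟩

theorem Clb.inter {C D : Set W1} (hC : Clb C) (hD : Clb D) : Clb (C ∩ D) :=
  clb_of_isClub (hC.isClub.inter (by rw [cof_W1]; exact aleph0_lt_aleph_one.ne') hD.isClub)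

/-- A stationary set is unbounded. -/
theorem stat_unbdd {S : Set W1} (hS : IsStationary S) (β : W1) : ∃ δ ∈ S, β < δ := by
  obtain ⟨δ, h1, h2⟩ := stat_meets hS (C := Ioi β) (by
    refine ⟨fun δ hδ => ?_, fun γ => ?_⟩
    · obtain ⟨ζ, hζ⟩ := hδ.1
      obtain ⟨α, hα, _, h2⟩ := hδ.2 ζ hζ
      exact (mem_Ioi.1 hα).trans h2
    · obtain ⟨α, h1, h2⟩ := exists_gt2_W1 β γ
      exact ⟨α, h1, h2⟩)
  exact ⟨δ, h1, h2⟩

theorem stat_or {S : Set W1} (hS : IsStationary S) (T : Set W1) :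
    IsStationary (S ∩ T) ∨ IsStationary (S \ T) := by
  by_contra! h
  obtain ⟨C, hC, h1⟩ := not_stat h.1
  obtain ⟨D, hD, h2⟩ := not_stat h.2
  obtain ⟨δ, hδ, hδ'⟩ := stat_meets hS (hC.inter hD)
  by_cases hT : δ ∈ T
  · exact h1 δ ⟨hδ, hT⟩ hδ'.1
  · exact h2 δ ⟨hδ, hT⟩ hδ'.2

theorem Lim.mono {c c' : Set W1} {δ : W1} (h : Lim c δ) (hc : c ⊆ c') : Lim c' δ :=
  ⟨h.1, fun β hβ => by
    obtain ⟨α, h1, h2⟩ := h.2 β hβ
    exact ⟨α, hc h1, h2⟩⟩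

theorem Hit.mono {K : Type} {h : K → W1 → Set W1} {δ : W1} {A B : Set K} {α : W1}
    (hA : Hit h δ A α) (hAB : A ⊆ B) : Hit h δ B α := by
  obtain ⟨x, hx, h1⟩ := hA
  exact ⟨x, hAB hx, h1⟩

/-- The least element of `ω₁`. -/
theorem exists_zero_W1 : ∃ o : W1, ∀ β, o ≤ β := by
  obtain ⟨m, _, hm⟩ := wellFounded_lt.has_min (univ : Set W1) univ_nonempty
  exact ⟨m, fun β => not_lt.1 (hm β (mem_univ _))⟩

end Pool.Agent.H79.MC
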