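import Pool.Agent.H79.MC.Op
import Pool.Agent.H71.ZO.Reduce

/-!
# Row Cod: the elements of `Vt K` are coded by subsets of `X`

Let `κ = X.card`.  `#K ≤ κ`, `ℵ₁ ≤ κ`.  `Vt K` is equivalent to the sum
`K ⊕ W1 ⊕ (K → Set W1) ⊕ (Set W1 × (W1 → ℕ → K))` (or map it injectively into this sum), so
`#(Vt K) ≤ κ + ℵ₁ + (2 ^ ℵ₁) ^ κ + 2 ^ ℵ₁ * (κ ^ ℵ₀) ^ ℵ₁ ≤ 2 ^ κ` (`κ` is infinite,
`(2 ^ ℵ₁) ^ κ = 2 ^ (ℵ₁ * κ) = 2 ^ κ`, `(κ ^ ℵ₀) ^ ℵ₁ ≤ ((2 ^ κ) ^ ℵ₀) ^ ℵ₁ = 2 ^ κ`, sums and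
products of infinite cardinals `≤ 2 ^ κ` are `≤ 2 ^ κ`).  Monotonicity of the power in the
exponent and base: `power_le_power_left`, `power_le_power_right`.

`#(Set (X : Set ZFSet)) = 2 ^ #(X : Set ZFSet)` and
`#(X : Set ZFSet) = lift.{1, 0} X.card` (`ZFSet.cardinalMk_coe_sort`), so
`lift.{1, 0} #(Vt K) ≤ #(Set (X : Set ZFSet))` and there is an injection
`u : Vt K → Set (X : Set ZFSet)` (`Cardinal.lift_mk_le'`, as in `exists_code` in `Reduce.lean`).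
Put `c v = ZFSet.sep (fun z => ∃ h : z ∈ (X : Set ZFSet), (⟨z, h⟩ : (X : Set ZFSet)) ∈ u v) X`.
It is injective, and `c v ⊆ X`, so `c v ∈ H θ` by `H_subset hX`.
-/

namespace Pool.Agent.H79.MC

open Cardinal Ordinal Set
open Pool.Agent.Results.MP_4b9105_lc.CanonicalBounding
open Pool.Agent.H71.ZO

/-- the injection into the sum -/
def cod_f {K : Type} : Vt K → (K ⊕ W1) ⊕ ((K → Set W1) ⊕ (Set W1 × (W1 → ℕ → K)))
  | .k x => .inl (.inl x)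
  | .o η => .inl (.inr η)
  | .z Z => .inr (.inl Z)
  | .c C e => .inr (.inr (C, e))

theorem cod_f_injective {K : Type} : Function.Injective (cod_f (K := K)) := by
  intro a b h
  cases a <;> cases b <;> simp only [cod_f, Sum.inl.injEq, Sum.inr.injEq, Prod.mk.injEq,
    reduceCtorEq] at h <;> simp_all

theorem cod_mk (K : Type) (κ : Cardinal.{0}) (hK : #K ≤ κ) (h1 : ℵ₁ ≤ κ) :
    #(Vt K) ≤ 2 ^ κ := by
  have h0 : ℵ₀ ≤ κ := (aleph0_le_aleph 1).trans h1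
  have h2 : κ ≤ 2 ^ κ := (cantor κ).le
  have h3 : ℵ₀ ≤ (2 : Cardinal.{0}) ^ κ := h0.trans h2
  have h4 : (2 : Cardinal.{0}) ^ (ℵ₁ : Cardinal.{0}) ≤ 2 ^ κ := power_le_power_left two_ne_zero h1
  refine (mk_le_of_injective cod_f_injective).trans ?_
  rw [mk_sum, mk_sum, mk_sum, mk_prod]
  simp only [Cardinal.lift_uzero]
  have e1 : #(K → Set W1) = ((2 : Cardinal.{0}) ^ (ℵ₁ : Cardinal.{0})) ^ #K := by
    rw [← power_def, mk_set, card_W1]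
  have e2 : #(W1 → ℕ → K) = (#K ^ (ℵ₀ : Cardinal.{0})) ^ (ℵ₁ : Cardinal.{0}) := by
    rw [← power_def, ← power_def, card_W1, mk_nat]
  have e3 : #(Set W1) = (2 : Cardinal.{0}) ^ (ℵ₁ : Cardinal.{0}) := by rw [mk_set, card_W1]
  rw [e1, e2, e3, card_W1]
  refine add_le_of_le h3 (add_le_of_le h3 (hK.trans h2) (h1.trans h2)) (add_le_of_le h3 ?_ ?_)
  · have hk : ((2 : Cardinal.{0}) ^ (ℵ₁ : Cardinal.{0})) ^ κ = 2 ^ κ := by
      rw [← power_mul, mul_eq_right h0 h1 (aleph_pos 1).ne']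
    rw [← hk]
    exact power_le_power_left (power_ne_zero _ two_ne_zero) hK
  · refine mul_le_of_le h3 h4 ?_
    have hk : (((2 : Cardinal.{0}) ^ κ) ^ (ℵ₀ : Cardinal.{0})) ^ (ℵ₁ : Cardinal.{0}) = 2 ^ κ := by
      rw [← power_mul, ← power_mul, aleph0_mul_eq (aleph0_le_aleph 1),
        mul_eq_left h0 h1 (aleph_pos 1).ne']
    rw [← hk]
    exact power_le_power_right (power_le_power_right (hK.trans h2))

theorem exists_code_V (θ : Cardinal.{0}) (K : Type) (X : ZFSet.{0}) (hX : X ∈ H θ)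
    (hK : #K ≤ X.card) (hX1 : ℵ₁ ≤ X.card) :
    ∃ c : Vt K → ZFSet.{0}, Function.Injective c ∧ ∀ v, c v ∈ H θ := by
  classical
  have hc : #(X : Set ZFSet.{0}) = lift.{1, 0} X.card := ZFSet.cardinalMk_coe_sort
  have h1 : lift.{1, 0} #(Vt K) ≤ lift.{0, 1} #(Set (X : Set ZFSet.{0})) := by
    rw [mk_set, hc, Cardinal.lift_uzero, ← lift_two.{1, 0}, ← lift_power, Cardinal.lift_le]
    exact cod_mk K _ hK hX1
  obtain ⟨u⟩ := lift_mk_le'.1 h1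
  refine ⟨fun v => ZFSet.sep (fun z => ∃ h : z ∈ (X : Set ZFSet.{0}), (⟨z, h⟩ : (X : Set ZFSet.{0})) ∈ u v) X,
    ?_, ?_⟩
  · intro v v' h
    apply u.injective
    ext ⟨z, hz⟩
    have h2 := congrArg (fun s : ZFSet.{0} => z ∈ s) h
    simp only [ZFSet.mem_sep, eq_iff_iff] at h2
    constructor
    · intro h3
      obtain ⟨_, _, h4⟩ := h2.1 ⟨hz, hz, h3⟩
      exact h4
    · intro h3
      obtain ⟨_, _, h4⟩ := h2.2 ⟨hz, hz, h3⟩
      exact h4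
  · intro v
    refine H_subset hX ?_
    intro z hz
    exact (ZFSet.mem_sep.1 hz).1

end Pool.Agent.H79.MC
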