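import Pool.Agent.H71.ZO.Stat

/-!
# Project MP_4b9105_MC: Martin's Maximum for posets of size at most the continuum implies the
0-1 law for open set mappings.  Definitions.

`W1` is the type of the countable ordinals (`bdd_W1`, `countable_Iio_W1`, `card_W1`,
`closure_points_club`, `exists_enum_W1` are available), `clo G A` the closure of `A` under `G`.
-/

namespace Pool.Agent.H79.MC

open Cardinal Ordinal Set
open Pool.Agent.Results.MP_4b9105_lc.CanonicalBounding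

/-! ### The forcing axiom -/

/-- A name, for the poset `P`, of a function from `ω₁` to `ω₁`: `R ξ p η` means that `p` decides
that the value at `ξ` is `η`. -/
structure FName (P : Type) [Preorder P] where
  R : W1 → P → W1 → Prop
  down : ∀ ξ p q η, R ξ p η → q ≤ p → R ξ q η
  uniq : ∀ ξ p η η', R ξ p η → R ξ p η' → η = η'
  dense : ∀ ξ p, ∃ q ≤ p, ∃ η, R ξ q η

/-- `P` preserves the stationary subsets of `ω₁`: for every stationary `S`, every name `f` of a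
function from `ω₁` to `ω₁` and every condition `p` there are `q ≤ p` and `δ ∈ S` such that `q`
forces that `f ξ < δ` for all `ξ < δ`. -/
def PresStat (P : Type) [Preorder P] : Prop :=
  ∀ S : Set W1, IsStationary S → ∀ (f : FName P) (p : P), ∃ q ≤ p, ∃ δ ∈ S,
    ∀ ξ < δ, ∀ r ≤ q, ∃ r' ≤ r, ∃ η < δ, f.R ξ r' η

/-- `F` is a filter on `P`. -/
def IsFilt (P : Type) [Preorder P] (F : Set P) : Prop :=
  F.Nonempty ∧ (∀ p ∈ F, ∀ q, p ≤ q → q ∈ F) ∧ ∀ p ∈ F, ∀ q ∈ F, ∃ r ∈ F, r ≤ p ∧ r ≤ q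

/-- Martin's Maximum for posets of size at most the continuum: for every nonempty partial order
`P` with at most `2^ℵ₀` elements which preserves the stationary subsets of `ω₁`, and every family
of `ℵ₁` dense subsets of `P`, some filter on `P` meets all of them. -/
def MMc : Prop :=
  ∀ (P : Type) [PartialOrder P] [Nonempty P], #P ≤ 2 ^ ℵ₀ → PresStat P →
    ∀ D : W1 → Set P, (∀ ξ p, ∃ q ∈ D ξ, q ≤ p) →
      ∃ F : Set P, IsFilt P F ∧ ∀ ξ, ∃ p ∈ F, p ∈ D ξ

/-! ### Closed sets of countable ordinals -/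

/-- `δ` is a limit of elements of `c`. -/
def Lim (c : Set W1) (δ : W1) : Prop :=
  (∃ β, β < δ) ∧ ∀ β < δ, ∃ α ∈ c, β < α ∧ α < δ

/-- `c` is closed. -/
def Cls (c : Set W1) : Prop := ∀ δ, Lim c δ → δ ∈ c

/-- `c` is closed and unbounded. -/
def Clb (c : Set W1) : Prop := Cls c ∧ ∀ β, ∃ α ∈ c, β < α

/-- `M` is closed under `G`. -/
def Clv {V : Type} (G : Finset V → Set V) (M : Set V) : Prop :=
  ∀ s : Finset V, (s : Set V) ⊆ M → G s ⊆ M

/-! ### Posets of closed bounded sets with labels -/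

/-- Requirements: `lab` for the labels, `req c g δ` at the elements `δ` of the closed set `c`;
`req c g δ` depends only on the restrictions of `c` and `g` to the ordinals `≤ δ`. -/
structure Rq (L : Type) where
  lab : L → Prop
  req : Set W1 → (W1 → L) → W1 → Prop
  loc : ∀ c c' g g' δ, (∀ α ≤ δ, α ∈ c ↔ α ∈ c') → (∀ α ≤ δ, g α = g' α) →
    req c g δ → req c' g' δ

/-- Conditions: closed bounded sets `c` with labels `g ξ`, `ξ ≤ m`. -/
@[ext]
structure Gn {L : Type} [Inhabited L] (Q : Rq L) where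
  m : W1
  c : Set W1
  g : W1 → L
  bd : ∀ α ∈ c, α ≤ m
  cl : Cls c
  lb : ∀ ξ ≤ m, Q.lab (g ξ)
  g0 : ∀ ξ, m < ξ → g ξ = default
  rq : ∀ δ ∈ c, Q.req c g δ

/-- `q ≤ p` if `q` is an end extension of `p`. -/
instance {L : Type} [Inhabited L] (Q : Rq L) : PartialOrder (Gn Q) where
  le q p := p.m ≤ q.m ∧ (∀ α ≤ p.m, α ∈ q.c ↔ α ∈ p.c) ∧ ∀ ξ ≤ p.m, q.g ξ = p.g ξ
  le_refl p := ⟨le_rfl, fun _ _ => Iff.rfl, fun _ _ => rfl⟩
  le_trans r q p h h' := ⟨h'.1.trans h.1,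
    fun α hα => (h.2.1 α (hα.trans h'.1)).trans (h'.2.1 α hα),
    fun ξ hξ => (h.2.2 ξ (hξ.trans h'.1)).trans (h'.2.2 ξ hξ)⟩
  le_antisymm q p h h' := by
    have hm : q.m = p.m := le_antisymm h'.1 h.1
    refine Gn.ext hm ?_ ?_
    · ext α
      constructor
      · intro hα
        exact (h.2.1 α (hm ▸ q.bd α hα)).1 hα
      · intro hα
        exact (h.2.1 α (p.bd α hα)).2 hα
    · funext ξ
      rcases le_or_gt ξ p.m with hξ | hξ
      · exact h.2.2 ξ hξ
      · rw [q.g0 ξ (hm ▸ hξ), p.g0 ξ hξ]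

theorem Gn.le_def {L : Type} [Inhabited L] {Q : Rq L} {q p : Gn Q} :
    q ≤ p ↔ p.m ≤ q.m ∧ (∀ α ≤ p.m, α ∈ q.c ↔ α ∈ p.c) ∧ ∀ ξ ≤ p.m, q.g ξ = p.g ξ := Iff.rfl

/-! ### The law, at the level of types -/

/-- The pair `(A, α)`, where `A ⊆ K` and `α < ω₁`, is in the open set given by `h` at `δ`. -/
def Hit {K : Type} (h : K → W1 → Set W1) (δ : W1) (A : Set K) (α : W1) : Prop :=
  ∃ x ∈ A, ∃ γ < α, ∀ β, γ < β → β ≤ α → β ∈ h x δ

/-- The universe of the models: elements of `K`, countable ordinals, functions from `K` to sets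
of countable ordinals, and chains. -/
inductive Vt (K : Type) : Type
  | k : K → Vt K
  | o : W1 → Vt K
  | z : (K → Set W1) → Vt K
  | c : Set W1 → (W1 → ℕ → K) → Vt K

/-- `M ∩ ω₁ = δ`. -/
def Trv {K : Type} (M : Set (Vt K)) (δ : W1) : Prop := ∀ η, Vt.o η ∈ M ↔ η < δ

/-- The open set at `δ` is avoided by a club which is an element of `M`. -/
def Type0 {K : Type} (h : K → W1 → Set W1) (M : Set (Vt K)) (δ : W1) : Prop :=
  ∃ Z : K → Set W1, Vt.z Z ∈ M ∧ (∀ x, Clb (Z x)) ∧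
    ∀ x, Vt.k x ∈ M → ∀ α ∈ Z x, α < δ → ¬ Hit h δ {x} α

/-- A continuous increasing chain of countable subsets of `K`, indexed by a club. -/
structure Chn {K : Type} (C : Set W1) (e : W1 → ℕ → K) : Prop where
  clb : Clb C
  mono : ∀ α ∈ C, ∀ β ∈ C, α ≤ β → range (e α) ⊆ range (e β)
  cont : ∀ δ, Lim C δ → ∀ x ∈ range (e δ), ∃ α ∈ C, α < δ ∧ x ∈ range (e α)

/-- The open set at `δ` contains a tail of a chain which is an element of `M`. -/
def Type1 {K : Type} (h : K → W1 → Set W1) (M : Set (Vt K)) (δ : W1) : Prop :=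
  ∃ (C : Set W1) (e : W1 → ℕ → K), Vt.c C e ∈ M ∧ Chn C e ∧
    ∃ γ < δ, ∀ α ∈ C, γ < α → α < δ → Hit h δ (range (e α)) α

/-- The law holds at the models `M` with `M ∩ ω₁ ∈ S`. -/
def Good {K : Type} (h : K → W1 → Set W1) (S : Set W1) : Prop :=
  ∃ G : Finset (Vt K) → Set (Vt K), (∀ s, (G s).Countable) ∧
    ∀ M : Set (Vt K), M.Countable → Clv G M → ∀ δ ∈ S, Trv M δ → Type0 h M δ ∨ Type1 h M δ

/-- The set `S` is not dealt with by functions: for every stationary `T ⊆ S` there are models `M`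
of type different from 0 with `M ∩ ω₁ ∈ T`. -/
def Pst {K : Type} (h : K → W1 → Set W1) (S : Set W1) : Prop :=
  ∀ T ⊆ S, IsStationary T → ∀ G : Finset (Vt K) → Set (Vt K), (∀ s, (G s).Countable) →
    ∃ M : Set (Vt K), M.Countable ∧ Clv G M ∧ ∃ δ ∈ T, Trv M δ ∧ ¬ Type0 h M δ

/-- The requirements for the chain poset. -/
def Qr {K : Type} (h : K → W1 → Set W1) (S : Set W1) : Rq (ℕ → K) where
  lab _ := True
  req c g δ := (∀ α ∈ c, α ≤ δ → range (g α) ⊆ range (g δ)) ∧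
    (Lim c δ → ∀ x ∈ range (g δ), ∃ α ∈ c, α < δ ∧ x ∈ range (g α)) ∧
    (δ ∈ S → Lim c δ → ∃ γ < δ, ∀ α ∈ c, γ < α → α < δ → Hit h δ (range (g α)) α)
  loc := by
    intro c c' g g' δ hc hg ⟨h1, h2, h3⟩
    have hL : Lim c' δ → Lim c δ := by
      rintro ⟨h4, h5⟩
      refine ⟨h4, fun β hβ => ?_⟩
      obtain ⟨α, hα, h6, h7⟩ := h5 β hβ
      exact ⟨α, (hc α h7.le).2 hα, h6, h7⟩
    refine ⟨fun α hα hαδ => ?_, fun hl x hx => ?_, fun hS hl => ?_⟩
    · rw [← hg α hαδ, ← hg δ le_rfl]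
      exact h1 α ((hc α hαδ).2 hα) hαδ
    · rw [← hg δ le_rfl] at hx
      obtain ⟨α, hα, h6, h7⟩ := h2 (hL hl) x hx
      exact ⟨α, (hc α h6.le).1 hα, h6, by rw [← hg α h6.le]; exact h7⟩
    · obtain ⟨γ, hγ, h6⟩ := h3 hS (hL hl)
      refine ⟨γ, hγ, fun α hα h7 h8 => ?_⟩
      rw [← hg α h8.le]
      exact h6 α ((hc α h8.le).2 hα) h7 h8

/-- The requirements for the sealing poset. -/
def Sr (I : Set (Set W1)) : Rq (Set W1) where
  lab s := s ∈ I
  req _ g δ := ∃ ξ < δ, δ ∈ g ξ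
  loc := by
    rintro c c' g g' δ hc hg ⟨ξ, hξ, h⟩
    exact ⟨ξ, hξ, by rw [← hg ξ hξ.le]; exact h⟩

end Pool.Agent.H79.MC
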