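import Pool.Agent.H79.MC.Op

/-!
# Row Gfa: the forcing axiom applied to `Gn Q` (proved)
-/

namespace Pool.Agent.H79.MC

open Cardinal Ordinal Set
open Pool.Agent.Results.MP_4b9105_lc.CanonicalBounding

theorem gn_fa {L : Type} [Inhabited L] (hMM : MMc) (Q : Rq L) (hne : Nonempty (Gn Q))
    (hcard : #(Gn Q) ≤ 2 ^ ℵ₀) (hpres : PresStat (Gn Q))
    (hext : ∀ (p : Gn Q) (β : W1), ∃ q ≤ p, ∃ α ∈ q.c, β < α) :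
    ∃ (C : Set W1) (g : W1 → L), Clb C ∧ (∀ ξ, Q.lab (g ξ)) ∧ ∀ δ ∈ C, Q.req C g δ := by
  obtain ⟨F, ⟨_, _, hFdir⟩, hFD⟩ := hMM (Gn Q) hcard hpres
    (fun β => {q | ∃ α ∈ q.c, β < α}) (fun β p => by
      obtain ⟨q, hq, h⟩ := hext p β
      exact ⟨q, h, hq⟩)
  have agc : ∀ p ∈ F, ∀ q ∈ F, ∀ α, α ≤ p.m → α ≤ q.m → (α ∈ p.c ↔ α ∈ q.c) := by
    intro p hp q hq α h1 h2
    obtain ⟨r, _, hrp, hrq⟩ := hFdir p hp q hq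
    rw [Gn.le_def] at hrp hrq
    exact (hrp.2.1 α h1).symm.trans (hrq.2.1 α h2)
  have agg : ∀ p ∈ F, ∀ q ∈ F, ∀ α, α ≤ p.m → α ≤ q.m → p.g α = q.g α := by
    intro p hp q hq α h1 h2
    obtain ⟨r, _, hrp, hrq⟩ := hFdir p hp q hq
    rw [Gn.le_def] at hrp hrq
    exact (hrp.2.2 α h1).symm.trans (hrq.2.2 α h2)
  choose pf hpF hpc using hFD
  have hpm : ∀ ξ, ξ < (pf ξ).m := by
    intro ξ
    obtain ⟨α, hα, h⟩ := hpc ξ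
    exact h.trans_le ((pf ξ).bd α hα)
  have hC : ∀ p ∈ F, ∀ α ≤ p.m, ((∃ q ∈ F, α ∈ q.c) ↔ α ∈ p.c) := by
    intro p hp α hα
    refine ⟨?_, fun h => ⟨p, hp, h⟩⟩
    rintro ⟨q, hq, h⟩
    exact (agc p hp q hq α hα (q.bd α h)).2 h
  have hg : ∀ p ∈ F, ∀ α ≤ p.m, (pf α).g α = p.g α :=
    fun p hp α hα => agg _ (hpF α) p hp α (hpm α).le hα
  refine ⟨{α | ∃ q ∈ F, α ∈ q.c}, fun ξ => (pf ξ).g ξ, ⟨?_, ?_⟩, ?_, ?_⟩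
  · intro δ hδ
    have h : Lim (pf δ).c δ := ⟨hδ.1, fun β hβ => by
      obtain ⟨α, hα, h1, h2⟩ := hδ.2 β hβ
      exact ⟨α, (hC _ (hpF δ) α (h2.le.trans (hpm δ).le)).1 hα, h1, h2⟩⟩
    exact ⟨pf δ, hpF δ, (pf δ).cl δ h⟩
  · intro β
    obtain ⟨α, hα, h⟩ := hpc β
    exact ⟨α, ⟨pf β, hpF β, hα⟩, h⟩
  · intro ξ
    exact (pf ξ).lb ξ (hpm ξ).le
  · rintro δ ⟨p, hp, hδ⟩
    have hm := p.bd δ hδ
    exact Q.loc p.c _ p.g _ δ (fun α hα => (hC p hp α (hα.trans hm)).symm)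
      (fun α hα => (hg p hp α (hα.trans hm)).symm) (p.rq δ hδ)

end Pool.Agent.H79.MC
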