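import Pool.Agent.H79.MC.Op

/-!
# Row Gnp: the posets `Gn Q`: size and limits

`gn_card`.  The map `p ↦ (p.m, p.c, p.g)` is injective (`Gn.ext`), so
`#(Gn Q) ≤ #W1 * (#(Set W1) * #(W1 → L))`.  Here `#W1 = ℵ₁ ≤ 2 ^ ℵ₁ ≤ 2 ^ ℵ₀`,
`#(Set W1) = 2 ^ ℵ₁ ≤ 2 ^ ℵ₀` and `#(W1 → L) = #L ^ ℵ₁ ≤ (2 ^ ℵ₀) ^ ℵ₁ = 2 ^ (ℵ₀ * ℵ₁) = 2 ^ ℵ₁`
(`card_W1`, `mk_set`, `power_def`, `power_mul`, `power_le_power_right`, `aleph0_mul_aleph`), and
`2 ^ ℵ₀` is infinite, so `mul_eq_self`.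

`gn_le_of_lt`: the sequence is decreasing, `p k ≤ p n` for `n ≤ k` (`antitone_nat_of_succ_le`).

`gn_lim`.  Note for all `n, k`: if `α ≤ (p n).m` and `α ≤ (p k).m`, then
`α ∈ (p n).c ↔ α ∈ (p k).c` and `(p n).g α = (p k).g α` (compare `p n ≤ p k` or `p k ≤ p n`);
moreover if `α ∈ (p k).c` and `α ≤ (p n).m` then `α ∈ (p n).c` (if `k ≤ n` use
`α ≤ (p k).m` by `bd`; if `n ≤ k` use `α ≤ (p n).m`).  For every `ξ < δ` there is `n` with
`ξ < (p n).m` (`hc`, `bd`).  Define `q`: `m = δ`, `c = {α | α = δ ∨ ∃ n, α ∈ (p n).c}`,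
`g ξ = if ξ = δ then l else if h : ∃ n, ξ ≤ (p n).m then (p h.choose).g ξ else default`.
Then `g ξ = (p n).g ξ` whenever `ξ ≤ (p n).m` (so `ξ < δ`, `ξ ≠ δ`).
* `bd`: clear from `hm`.
* `cl`: let `Lim c ε`.  If `δ < ε`, the definition of `Lim` with `β = δ` gives `α ∈ c` with
  `δ < α`, impossible.  If `ε = δ`, `ε ∈ c`.  If `ε < δ`, take `n` with `ε < (p n).m`; then
  `Lim (p n).c ε` since the elements of `c` below `ε` are in `(p n).c`, so `ε ∈ (p n).c`.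
* `lb`: for `ξ = δ` it is `hl`; for `ξ < δ` take `n` with `ξ < (p n).m` and `(p n).lb`.
* `g0`: for `ξ > δ`: not `δ`, and no `n` since `(p n).m < δ < ξ`.
* `rq`: for `δ' ∈ (p n).c` apply `Q.loc` to `(p n).rq δ'`; for `δ` apply `hreq`.
`q ≤ p n`: `hm`, and the facts above.
-/

namespace Pool.Agent.H79.MC

open Cardinal Ordinal Set
open Pool.Agent.Results.MP_4b9105_lc.CanonicalBounding

theorem gn_card {L : Type} [Inhabited L] (Q : Rq L) (h1 : (2 : Cardinal.{0}) ^ ℵ₁ ≤ 2 ^ ℵ₀)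
    (hL : #L ≤ 2 ^ ℵ₀) : #(Gn Q) ≤ 2 ^ ℵ₀ := by
  have hinj : Function.Injective (fun p : Gn Q => ((p.m, p.c, p.g) : W1 × Set W1 × (W1 → L))) := by
    intro p q h
    simp only [Prod.mk.injEq] at h
    exact Gn.ext h.1 h.2.1 h.2.2
  have h2 : #(Gn Q) ≤ #(W1 × Set W1 × (W1 → L)) := mk_le_of_injective hinj
  have hinf : ℵ₀ ≤ (2 : Cardinal.{0}) ^ ℵ₀ := (cantor ℵ₀).le
  have hW : #W1 ≤ (2 : Cardinal.{0}) ^ ℵ₀ := by
    rw [card_W1]
    exact (cantor ℵ₁).le.trans h1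
  have hS : #(Set W1) ≤ (2 : Cardinal.{0}) ^ ℵ₀ := by
    rw [mk_set, card_W1]
    exact h1
  have hF : #(W1 → L) ≤ (2 : Cardinal.{0}) ^ ℵ₀ := by
    rw [← power_def, card_W1]
    refine (power_le_power_right hL).trans ?_
    rw [← power_mul, aleph0_mul_eq (aleph0_le_aleph 1)]
    exact h1
  have h3 : #(W1 × Set W1 × (W1 → L)) = #W1 * (#(Set W1) * #(W1 → L)) := by
    rw [mk_prod, mk_prod]
    simp only [Cardinal.lift_id]
  rw [h3] at h2
  refine h2.trans ((mul_le_mul' hW (mul_le_mul' hS hF)).trans ?_)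
  rw [mul_eq_self hinf, mul_eq_self hinf]

theorem gn_le_of_le {L : Type} [Inhabited L] {Q : Rq L} (p : ℕ → Gn Q)
    (hp : ∀ n, p (n + 1) ≤ p n) {n k : ℕ} (h : n ≤ k) : p k ≤ p n :=
  antitone_nat_of_succ_le hp h

theorem gnp_iff {L : Type} [Inhabited L] {Q : Rq L} (p : ℕ → Gn Q) (hp : ∀ n, p (n + 1) ≤ p n)
    (n k : ℕ) (α : W1) (h1 : α ≤ (p n).m) (h2 : α ≤ (p k).m) :
    (α ∈ (p n).c ↔ α ∈ (p k).c) ∧ (p n).g α = (p k).g α := by
  rcases le_total n k with h | h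
  · have h3 := Gn.le_def.1 (gn_le_of_le p hp h)
    exact ⟨(h3.2.1 α h1).symm, (h3.2.2 α h1).symm⟩
  · have h3 := Gn.le_def.1 (gn_le_of_le p hp h)
    exact ⟨h3.2.1 α h2, h3.2.2 α h2⟩

theorem gn_lim {L : Type} [Inhabited L] {Q : Rq L} (p : ℕ → Gn Q) (hp : ∀ n, p (n + 1) ≤ p n)
    (δ : W1) (h0 : ∃ β, β < δ) (hm : ∀ n, (p n).m < δ)
    (hc : ∀ β < δ, ∃ n, ∃ α ∈ (p n).c, β < α) (l : L) (hl : Q.lab l)
    (hreq : ∀ (c : Set W1) (g : W1 → L), (∀ α, α ∈ c ↔ α = δ ∨ ∃ n, α ∈ (p n).c) →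
      (∀ n, ∀ ξ ≤ (p n).m, g ξ = (p n).g ξ) → g δ = l → Q.req c g δ) :
    ∃ q : Gn Q, (∀ n, q ≤ p n) ∧ q.m = δ ∧ q.g δ = l := by
  classical
  have hlt : ∀ ξ < δ, ∃ n, ξ < (p n).m := by
    intro ξ hξ
    obtain ⟨n, α, hα, h⟩ := hc ξ hξ
    exact ⟨n, h.trans_le ((p n).bd α hα)⟩
  let c : Set W1 := {α | α = δ ∨ ∃ n, α ∈ (p n).c}
  let g : W1 → L := fun ξ =>
    if ξ = δ then l else if h : ∃ n, ξ ≤ (p n).m then (p h.choose).g ξ else default
  have hcmem : ∀ α, α ∈ c ↔ α = δ ∨ ∃ n, α ∈ (p n).c := fun α => Iff.rfl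
  have hcn : ∀ n, ∀ α ≤ (p n).m, α ∈ c ↔ α ∈ (p n).c := by
    intro n α hα
    constructor
    · rintro (h | ⟨k, hk⟩)
      · exact absurd (h ▸ hα) (not_le.2 (hm n))
      · exact (gnp_iff p hp n k α hα ((p k).bd α hk)).1.2 hk
    · intro h
      exact Or.inr ⟨n, h⟩
  have hgd : g δ = l := by
    show (if δ = δ then l else _) = l
    rw [if_pos rfl]
  have hgn : ∀ n, ∀ ξ ≤ (p n).m, g ξ = (p n).g ξ := by
    intro n ξ hξ
    have h1 : ξ ≠ δ := by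
      rintro rfl
      exact absurd hξ (not_le.2 (hm n))
    have h2 : ∃ n, ξ ≤ (p n).m := ⟨n, hξ⟩
    show (if ξ = δ then l else if h : ∃ n, ξ ≤ (p n).m then (p h.choose).g ξ else default) = _
    rw [if_neg h1, dif_pos h2]
    exact (gnp_iff p hp _ n ξ h2.choose_spec hξ).2
  let q : Gn Q :=
    { m := δ
      c := c
      g := g
      bd := by
        rintro α (h | ⟨n, h⟩)
        · exact h.le
        · exact ((p n).bd α h).trans (hm n).le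
      cl := by
        intro ε hε
        rcases lt_trichotomy ε δ with h | h | h
        · obtain ⟨n, hn⟩ := hlt ε h
          refine (hcn n ε hn.le).2 ((p n).cl ε ⟨hε.1, fun β hβ => ?_⟩)
          obtain ⟨α, h1, h2, h3⟩ := hε.2 β hβ
          exact ⟨α, (hcn n α (h3.le.trans hn.le)).1 h1, h2, h3⟩
        · exact Or.inl h
        · obtain ⟨α, h1, h2, h3⟩ := hε.2 δ h
          rcases h1 with h1 | ⟨n, h1⟩
          · exact absurd h1 h2.ne'
          · exact absurd ((p n).bd α h1) (not_le.2 ((hm n).trans h2))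
      lb := by
        intro ξ hξ
        rcases lt_or_eq_of_le hξ with h | h
        · obtain ⟨n, hn⟩ := hlt ξ h
          rw [hgn n ξ hn.le]
          exact (p n).lb ξ hn.le
        · rw [h, hgd]
          exact hl
      g0 := by
        intro ξ hξ
        have h2 : ¬ ∃ n, ξ ≤ (p n).m := by
          rintro ⟨n, hn⟩
          exact absurd ((hm n).trans hξ) (not_lt.2 hn)
        show (if ξ = δ then l else if h : ∃ n, ξ ≤ (p n).m then (p h.choose).g ξ else default) = _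
        rw [if_neg hξ.ne', dif_neg h2]
      rq := by
        rintro δ' (h | ⟨n, h⟩)
        · rw [h]
          exact hreq c g hcmem hgn hgd
        · have h1 := (p n).bd δ' h
          exact Q.loc (p n).c c (p n).g g δ' (fun α hα => (hcn n α (hα.trans h1)).symm)
            (fun α hα => (hgn n α (hα.trans h1)).symm) ((p n).rq δ' h) }
  refine ⟨q, fun n => ?_, rfl, hgd⟩
  exact ⟨(hm n).le, fun α hα => hcn n α hα, fun ξ hξ => hgn n ξ hξ⟩

end Pool.Agent.H79.MC
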