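import Pool.Agent.H79.MC.Op

/-!
# Row Sle: extensions in the sealing poset `Gn (Sr I)`

Here `default : Set W1` is `∅` (by `rfl`).  `sl_ne`: `m` = any element, `c = ∅`,
`g = fun _ => ∅`; `Cls ∅` holds because `Lim ∅ δ` is impossible.

`sl_ext`: choose `ξ0 > p.m` (`exists_gt_W1`), `α` with `α ∈ T`, `α > ξ0` and `α > β`
(`stat_unbdd hT (max ξ0 β)`).  Let `q`: `m = α`, `c = insert α p.c`,
`g ξ = if ξ = ξ0 then T else p.g ξ`.
* `bd`: `p.bd` and `p.m < ξ0 < α`.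
* `cl`: if `Lim (insert α p.c) δ`: if `δ ≤ α`, the elements of `insert α p.c` below `δ` are in
  `p.c`, so `Lim p.c δ` and `δ ∈ p.c`; if `α < δ`, `Lim` with `β = α` gives an element `> α` of
  `insert α p.c`, but `p.c ≤ p.m < α`: contradiction.
* `lb`: `T ∈ I`; `p.g ξ ∈ I` by `p.lb` for `ξ ≤ p.m`, and `p.g ξ = ∅ ∈ I` for `p.m < ξ`.
* `g0`: for `ξ > α`: `ξ ≠ ξ0`, and `ξ > p.m`.
* `rq`: for `δ ∈ p.c`: the `ξ < δ` of `p.rq δ` satisfies `ξ < δ ≤ p.m < ξ0`, so `ξ ≠ ξ0`.  For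
  `δ = α`: `ξ0 < α` and `α ∈ T`.
`q ≤ p`: for `α' ≤ p.m`, `α' ≠ α` and `α' ≠ ξ0`.  Finally `ξ0 ≤ α = q.m` and `q.g ξ0 = T`.
-/

namespace Pool.Agent.H79.MC

open Cardinal Ordinal Set
open Pool.Agent.Results.MP_4b9105_lc.CanonicalBounding

theorem sl_ne (I : Set (Set W1)) (h0 : ∅ ∈ I) : Nonempty (Gn (Sr I)) := by
  obtain ⟨o, _⟩ := exists_zero_W1
  exact ⟨{
    m := o
    c := ∅
    g := fun _ => ∅
    bd := fun α hα => absurd hα (notMem_empty α)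
    cl := fun δ hδ => by
      obtain ⟨⟨β, hβ⟩, h⟩ := hδ
      obtain ⟨α, hα, _⟩ := h β hβ
      exact absurd hα (notMem_empty α)
    lb := fun _ _ => h0
    g0 := fun _ _ => rfl
    rq := fun δ hδ => absurd hδ (notMem_empty δ) }⟩

theorem sl_ext (I : Set (Set W1)) (h0 : ∅ ∈ I) (p : Gn (Sr I)) (T : Set W1)
    (hT : IsStationary T) (hTI : T ∈ I) (β : W1) :
    ∃ q ≤ p, (∃ α ∈ q.c, β < α) ∧ ∃ ξ ≤ q.m, q.g ξ = T := by
  classical
  obtain ⟨ξ0, hξ0⟩ := exists_gt_W1 p.m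
  obtain ⟨α, hαT, hα⟩ := stat_unbdd hT (max ξ0 β)
  have hα1 : ξ0 < α := (le_max_left _ _).trans_lt hα
  have hα2 : β < α := (le_max_right _ _).trans_lt hα
  have hα3 : p.m < α := hξ0.trans hα1
  refine ⟨{
    m := α
    c := insert α p.c
    g := fun ξ => if ξ = ξ0 then T else p.g ξ
    bd := ?_
    cl := ?_
    lb := ?_
    g0 := ?_
    rq := ?_ }, ?_, ⟨α, mem_insert _ _, hα2⟩, ξ0, hα1.le, if_pos rfl⟩
  · rintro γ (rfl | hγ)
    · exact le_rfl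
    · exact (p.bd γ hγ).trans hα3.le
  · intro δ hδ
    rcases le_or_gt δ α with h | h
    · refine Or.inr (p.cl δ ⟨hδ.1, fun γ hγ => ?_⟩)
      obtain ⟨ζ, hζ, h1, h2⟩ := hδ.2 γ hγ
      rcases hζ with rfl | hζ
      · exact absurd h (not_le.2 h2)
      · exact ⟨ζ, hζ, h1, h2⟩
    · obtain ⟨ζ, hζ, h1, h2⟩ := hδ.2 α h
      rcases hζ with rfl | hζ
      · exact absurd h1 (lt_irrefl _)
      · exact absurd (h1.trans_le (p.bd ζ hζ)) (not_lt.2 hα3.le)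
  · intro ξ _
    change (if ξ = ξ0 then T else p.g ξ) ∈ I
    split_ifs with h
    · exact hTI
    · rcases le_or_gt ξ p.m with h1 | h1
      · exact p.lb ξ h1
      · rw [p.g0 ξ h1]
        exact h0
  · intro ξ hξ
    change (if ξ = ξ0 then T else p.g ξ) = default
    rw [if_neg (hα1.trans hξ).ne', p.g0 ξ (hα3.trans hξ)]
  · intro δ hδ
    change ∃ ξ < δ, δ ∈ (if ξ = ξ0 then T else p.g ξ)
    rcases hδ with rfl | hδ
    · exact ⟨ξ0, hα1, by rw [if_pos rfl]; exact hαT⟩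
    · obtain ⟨ξ, hξ, h1⟩ := p.rq δ hδ
      refine ⟨ξ, hξ, ?_⟩
      rw [if_neg ((hξ.trans_le (p.bd δ hδ)).trans hξ0).ne]
      exact h1
  · refine Gn.le_def.2 ⟨hα3.le, fun γ hγ => ⟨?_, fun h => Or.inr h⟩, fun ξ hξ => ?_⟩
    · rintro (rfl | h)
      · exact absurd hγ (not_le.2 hα3)
      · exact h
    · exact if_neg (hξ.trans_lt hξ0).ne

end Pool.Agent.H79.MC
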