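import Pool.Agent.H79.MC.Mdl
import Pool.Agent.H79.MC.Gnp
import Pool.Agent.H79.MC.Gfa
import Pool.Agent.H79.MC.Sle

/-!
# Row Slp: the sealing poset preserves stationary sets; sealing

`sl_pres`.  Let `S` be stationary, `f` a name, `p : Gn (Sr I)`.  By `hd` there is a stationary
`T ⊆ S`, `T ∈ I`.  By `sl_ext` there is `p0 ≤ p` and `ξ0 ≤ p0.m` with `p0.g ξ0 = T`.  For a
condition `r` and `ξ : W1` let `q1 ≤ r` with an element of `q1.c` above `ξ` (`sl_ext` with `T`),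
then `st r ξ ≤ q1` and `et r ξ` with `f.R ξ (st r ξ) (et r ξ)` (`f.dense`).  So `st r ξ ≤ r` and
`(st r ξ).c` has an element above `ξ` (`Gn.le_def`: elements of `q1.c` are `≤ q1.m`).
Apply `mdl` to `V = Gn (Sr I) ⊕ W1`, `ι = Sum.inr`, `A = {Sum.inl p0}`, the stationary set `T` and
the operation `op4` of the function which maps `(Sum.inl r, Sum.inr ξ, _, _)` to
`{Sum.inl (st r ξ), Sum.inr (et r ξ), Sum.inr r.m}` and everything else to `∅`.
We get `M` and `δ ∈ T`.  Let `a : ℕ → W1` with `range a = Iio δ` (`exists_enum_W1`).  Define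
`pp 0 = p0`, `pp (n+1) = st (pp n) (a n)`.  By induction `Sum.inl (pp n) ∈ M`, so
`(pp n).m < δ`.  Since `ξ0 ≤ p0.m`, `ξ0 < δ`.  `gn_lim` applies with `l = ∅` (in `I`): for
`β < δ`, `β = a n`, `pp (n+1)` has an element above `β`; requirement at `δ`:
`∃ ξ < δ, δ ∈ g ξ` with `ξ = ξ0`, `g ξ0 = (pp 0).g ξ0 = T ∋ δ`.  We get `q`, `q ≤ pp n` for all
`n`, so `q ≤ p0 ≤ p`, and `δ ∈ T ⊆ S`.  For `ξ < δ`, `ξ = a n`, and `r ≤ q`: `r' = r`,
`η = et (pp n) (a n) < δ` (as `Sum.inr η ∈ M`), `f.R ξ r η` by `f.down` from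
`f.R (a n) (pp (n+1)) η`.

`sealing`.  Apply `gn_fa` to `Sr I`, with `sl_ne`, `gn_card` (`#(Set W1) = 2 ^ ℵ₁ ≤ 2 ^ ℵ₀`),
`sl_pres`, and `sl_ext` (with a stationary `T ∈ I`, from `hd univ`; `univ` is stationary since
`W1` is nonempty).  The requirement is the conclusion.
-/

namespace Pool.Agent.H79.MC

open Cardinal Ordinal Set
open Pool.Agent.Results.MP_4b9105_lc.CanonicalBounding

theorem slp_step (I : Set (Set W1)) (h0 : ∅ ∈ I) {T : Set W1} (hT : IsStationary T) (hTI : T ∈ I)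
    (f : FName (Gn (Sr I))) (r : Gn (Sr I)) (ξ : W1) :
    ∃ (q : Gn (Sr I)) (η : W1), q ≤ r ∧ (∃ α ∈ q.c, ξ < α) ∧ f.R ξ q η := by
  obtain ⟨q1, hq1, ⟨α, hα, hξα⟩, _⟩ := sl_ext I h0 r T hT hTI ξ
  obtain ⟨q, hq, η, hη⟩ := f.dense ξ q1
  exact ⟨q, η, hq.trans hq1, ⟨α, ((Gn.le_def.1 hq).2.1 α (q1.bd α hα)).2 hα, hξα⟩, hη⟩

/-- the operation -/
noncomputable def slp_F {P : Type} (m : P → W1) (st : P → W1 → P) (et : P → W1 → W1) :
    P ⊕ W1 → P ⊕ W1 → P ⊕ W1 → P ⊕ W1 → Set (P ⊕ W1)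
  | Sum.inl r, Sum.inr ξ, _, _ => {Sum.inl (st r ξ), Sum.inr (et r ξ), Sum.inr (m r)}
  | _, _, _, _ => ∅

theorem slp_F_countable {P : Type} (m : P → W1) (st : P → W1 → P) (et : P → W1 → W1)
    (a b c d : P ⊕ W1) : (slp_F m st et a b c d).Countable := by
  rcases a with r | r <;> rcases b with ξ | ξ
  · exact countable_empty
  · exact ((countable_singleton _).insert _).insert _
  · exact countable_empty
  · exact countable_empty

theorem sl_pres (I : Set (Set W1)) (h0 : ∅ ∈ I)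
    (hd : ∀ S, IsStationary S → ∃ T ⊆ S, IsStationary T ∧ T ∈ I) : PresStat (Gn (Sr I)) := by
  classical
  intro S hS f p
  obtain ⟨T, hTS, hT, hTI⟩ := hd S hS
  obtain ⟨p0, hp0, _, ξ0, hξ0, hg0⟩ := sl_ext I h0 p T hT hTI p.m
  choose st et hst hsc hsR using slp_step I h0 hT hTI f
  obtain ⟨M, _, hAM, hcl, δ, hδT, ⟨β0, hβ0⟩, hδ⟩ := mdl (Sum.inr : W1 → Gn (Sr I) ⊕ W1)
    Sum.inr_injective (op4 (slp_F (fun r : Gn (Sr I) => r.m) st et))
    (op4_countable _ (slp_F_countable _ st et)) {Sum.inl p0} (countable_singleton _) hT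
  obtain ⟨a, ha⟩ := exists_enum_W1 δ ⟨β0, hβ0⟩
  have haδ : ∀ n, a n < δ := by
    intro n
    have : a n ∈ range a := mem_range_self n
    rw [ha] at this
    exact this
  have haM : ∀ n, (Sum.inr (a n) : Gn (Sr I) ⊕ W1) ∈ M := fun n => (hδ _).2 (haδ n)
  let pp : ℕ → Gn (Sr I) := fun n => Nat.rec p0 (fun n r => st r (a n)) n
  have hpp0 : pp 0 = p0 := rfl
  have hpps : ∀ n, pp (n + 1) = st (pp n) (a n) := fun n => rfl
  have hppM : ∀ n, (Sum.inl (pp n) : Gn (Sr I) ⊕ W1) ∈ M := by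
    intro n
    induction n with
    | zero => exact hAM (mem_singleton _)
    | succ n ih =>
      have h := clv_op4 hcl ih (haM n) ih ih
      exact h (Or.inl rfl)
  have hppm : ∀ n, (pp n).m < δ := by
    intro n
    have h := clv_op4 hcl (hppM n) (haM 0) (hppM n) (hppM n)
    exact (hδ _).1 (h (Or.inr (Or.inr rfl)))
  have hppe : ∀ n, et (pp n) (a n) < δ := by
    intro n
    have h := clv_op4 hcl (hppM n) (haM n) (hppM n) (hppM n)
    exact (hδ _).1 (h (Or.inr (Or.inl rfl)))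
  have hdec : ∀ n, pp (n + 1) ≤ pp n := fun n => by
    rw [hpps]
    exact hst _ _
  have hex : ∀ ξ < δ, ∃ n, a n = ξ := by
    intro ξ hξ
    have : ξ ∈ range a := by
      rw [ha]
      exact hξ
    exact this
  obtain ⟨q, hq, _, _⟩ := gn_lim pp hdec δ ⟨β0, hβ0⟩ hppm (by
    intro β hβ
    obtain ⟨n, rfl⟩ := hex β hβ
    refine ⟨n + 1, ?_⟩
    rw [hpps]
    exact hsc _ _) ∅ h0 (by
    intro c g _ hg _
    refine ⟨ξ0, hξ0.trans_lt (hppm 0), ?_⟩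
    rw [hg 0 ξ0 hξ0, hpp0, hg0]
    exact hδT)
  refine ⟨q, (hq 0).trans hp0, δ, hTS hδT, ?_⟩
  intro ξ hξ r hr
  obtain ⟨n, rfl⟩ := hex ξ hξ
  refine ⟨r, le_rfl, et (pp n) (a n), hppe n, ?_⟩
  exact f.down _ _ _ _ (hsR (pp n) (a n)) (hr.trans (hq (n + 1)))

theorem sealing (hMM : MMc) (h1 : (2 : Cardinal.{0}) ^ ℵ₁ ≤ 2 ^ ℵ₀) (I : Set (Set W1))
    (h0 : ∅ ∈ I) (hd : ∀ S, IsStationary S → ∃ T ⊆ S, IsStationary T ∧ T ∈ I) :
    ∃ (C : Set W1) (g : W1 → Set W1), Clb C ∧ (∀ ξ, g ξ ∈ I) ∧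
      ∀ δ ∈ C, ∃ ξ < δ, δ ∈ g ξ := by
  have hL : #(Set W1) ≤ (2 : Cardinal.{0}) ^ ℵ₀ := by
    rw [mk_set, card_W1]
    exact h1
  obtain ⟨o, _⟩ := exists_zero_W1
  have hne : Nonempty W1 := ⟨o⟩
  obtain ⟨T, _, hT, hTI⟩ := hd univ IsStationary.univ
  exact gn_fa hMM (Sr I) (sl_ne I h0) (gn_card (Sr I) h1 hL) (sl_pres I h0 hd) (by
    intro p β
    obtain ⟨q, hq, h, _⟩ := sl_ext I h0 p T hT hTI β
    exact ⟨q, hq, h⟩)

end Pool.Agent.H79.MC
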