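import Pool.Agent.H79.MC.Qgd
import Pool.Agent.H79.MC.Slp

/-!
# Row Gdi: the ideal of the good sets

* `Good.mono`: the same operation.
* `Good.union`: the union of the two operations (`clv_union`).
* `Good.diag`: let `G ξ` be the operation for `g ξ`.  Use
  `G' s = ⋃ ξ ∈ {ξ | Vt.o ξ ∈ s}, ⋃ t ∈ s.powerset, G ξ t`; it is countable
  (`{ξ | Vt.o ξ ∈ s}` is finite, `Vt.o` is injective).  If `M` is closed under `G'`, `Trv M δ`,
  `ξ < δ`, `δ ∈ g ξ`, then `Vt.o ξ ∈ M`, and `M` is closed under `G ξ`: for a finite `t ⊆ M` use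
  `s = insert (Vt.o ξ) t`.
* `good_of_clb`: choose `nx β ∈ C`, `β < nx β`.  Operation: constant `{Vt.o o}` and
  `(Vt.o β, ..) ↦ {Vt.o (nx β)}` (`op4`).  If `M` is closed and `Trv M δ` then `Lim C δ`, so
  `δ ∈ C`; hence `δ ∉ S` and nothing is to be shown.
* `good_empty`: there is no `δ ∈ ∅`.
* `good_dense`: if `Pst h S`, take `T = S` (`qs_good`).  Otherwise (push the negation) there are a
  stationary `T ⊆ S` and an operation `G` with countable values such that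
  `Type0 h M δ` for all countable closed `M` and `δ ∈ T` with `Trv M δ`.  So `Good h T`.
* `good_univ`: apply `sealing` to `I = {S | Good h S}`; get `C`, `g`.  `{δ | ∃ ξ < δ, δ ∈ g ξ}` is
  good by `Good.diag`, it contains `C`; the complement of `C` is good by `good_of_clb`.  Union.
-/

namespace Pool.Agent.H79.MC

open Cardinal Ordinal Set
open Pool.Agent.Results.MP_4b9105_lc.CanonicalBounding

theorem Good.mono {K : Type} {h : K → W1 → Set W1} {S T : Set W1} (hS : Good h S) (hT : T ⊆ S) :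
    Good h T := by
  obtain ⟨G, hG, h1⟩ := hS
  exact ⟨G, hG, fun M hM hc δ hδ ht => h1 M hM hc δ (hT hδ) ht⟩

theorem Good.union {K : Type} {h : K → W1 → Set W1} {S T : Set W1} (hS : Good h S)
    (hT : Good h T) : Good h (S ∪ T) := by
  obtain ⟨G, hG, h1⟩ := hS
  obtain ⟨G', hG', h2⟩ := hT
  refine ⟨fun s => G s ∪ G' s, fun s => (hG s).union (hG' s), fun M hM hc δ hδ ht => ?_⟩
  obtain ⟨c1, c2⟩ := clv_union.1 hc
  rcases hδ with hδ | hδ
  · exact h1 M hM c1 δ hδ ht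
  · exact h2 M hM c2 δ hδ ht

theorem Good.diag {K : Type} {h : K → W1 → Set W1} {g : W1 → Set W1}
    (hg : ∀ ξ, Good h (g ξ)) : Good h {δ | ∃ ξ < δ, δ ∈ g ξ} := by
  classical
  choose G hG h1 using hg
  refine ⟨fun s => ⋃ ξ ∈ {ξ : W1 | (Vt.o ξ : Vt K) ∈ s},
    ⋃ t ∈ {t : Finset (Vt K) | t ∈ s.powerset}, G ξ t, fun s => ?_, fun M hM hc δ hδ ht => ?_⟩
  · have hf : {ξ : W1 | (Vt.o ξ : Vt K) ∈ s}.Finite := by
      have hinj : Function.Injective (Vt.o : W1 → Vt K) := fun a b hab => by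
        injection hab
      exact s.finite_toSet.preimage hinj.injOn
    refine hf.countable.biUnion fun ξ _ => ?_
    exact (s.powerset.finite_toSet.countable).biUnion fun t _ => hG ξ t
  · obtain ⟨ξ, hξ, hδ'⟩ := hδ
    have hξM : (Vt.o ξ : Vt K) ∈ M := (ht ξ).2 hξ
    refine h1 ξ M hM (fun t htM => ?_) δ hδ' ht
    refine Subset.trans ?_ (hc (insert (Vt.o ξ) t) ?_)
    · intro z hz
      refine mem_iUnion₂.2 ⟨ξ, Finset.mem_insert_self _ _, mem_iUnion₂.2 ⟨t, ?_, hz⟩⟩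
      exact Finset.mem_powerset.2 (Finset.subset_insert _ _)
    · intro z hz
      rcases Finset.mem_insert.1 (Finset.mem_coe.1 hz) with h2 | h2
      · rw [h2]; exact hξM
      · exact htM (Finset.mem_coe.2 h2)

/-- The operation of `good_of_clb`. -/
def gdi_f {K : Type} (nx : W1 → W1) : Vt K → Vt K → Vt K → Vt K → Set (Vt K)
  | .o β, _, _, _ => {Vt.o (nx β)}
  | _, _, _, _ => ∅

theorem gdi_f_countable {K : Type} (nx : W1 → W1) (a b c d : Vt K) :
    (gdi_f nx a b c d).Countable := by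
  cases a with
  | k x => exact countable_empty
  | o β => exact countable_singleton _
  | z Z => exact countable_empty
  | c C e => exact countable_empty

theorem good_of_clb {K : Type} {h : K → W1 → Set W1} {C S : Set W1} (hC : Clb C)
    (hS : ∀ δ ∈ S, δ ∉ C) : Good h S := by
  obtain ⟨o, ho⟩ := exists_zero_W1
  choose nx hnx hlt using hC.2
  refine ⟨fun s => {Vt.o o} ∪ op4 (gdi_f nx) s,
    fun s => (countable_singleton _).union (op4_countable _ (gdi_f_countable nx) s),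
    fun M hM hc δ hδ ht => ?_⟩
  obtain ⟨c1, c2⟩ := clv_union.1 hc
  have hoM : (Vt.o o : Vt K) ∈ M := clv_const.1 c1 (mem_singleton _)
  refine absurd (hC.1 δ ⟨⟨o, (ht o).1 hoM⟩, fun β hβ => ?_⟩) (hS δ hδ)
  have hβM : (Vt.o β : Vt K) ∈ M := (ht β).2 hβ
  have h3 : (Vt.o (nx β) : Vt K) ∈ M :=
    clv_op4 c2 hβM hβM hβM hβM (show (Vt.o (nx β) : Vt K) ∈ gdi_f nx (Vt.o β) _ _ _ from
      mem_singleton _)
  exact ⟨nx β, hnx β, hlt β, (ht _).1 h3⟩

theorem good_empty {K : Type} {h : K → W1 → Set W1} : Good h ∅ :=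
  ⟨fun _ => ∅, fun _ => countable_empty, fun _ _ _ δ hδ => absurd hδ (notMem_empty δ)⟩

theorem good_dense (hMM : MMc) (h1 : (2 : Cardinal.{0}) ^ ℵ₁ ≤ 2 ^ ℵ₀) {K : Type}
    [Inhabited K] (hK : #K ≤ 2 ^ ℵ₀) (h : K → W1 → Set W1) (S : Set W1)
    (hS : IsStationary S) : ∃ T ⊆ S, IsStationary T ∧ Good h T := by
  by_cases hP : Pst h S
  · exact ⟨S, Subset.rfl, hS, qs_good hMM h1 hK hP⟩
  · unfold Pst at hP
    push Not at hP
    obtain ⟨T, hTS, hT, G, hG, hM⟩ := hP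
    exact ⟨T, hTS, hT, G, hG, fun M hMc hc δ hδ ht => Or.inl (hM M hMc hc δ hδ ht)⟩

theorem good_univ (hMM : MMc) (h1 : (2 : Cardinal.{0}) ^ ℵ₁ ≤ 2 ^ ℵ₀) {K : Type}
    [Inhabited K] (hK : #K ≤ 2 ^ ℵ₀) (h : K → W1 → Set W1) : Good h univ := by
  obtain ⟨C, g, hC, hg, hCg⟩ := sealing hMM h1 {S | Good h S} good_empty
    fun S hS => good_dense hMM h1 hK h S hS
  have h2 : Good h {δ | ∃ ξ < δ, δ ∈ g ξ} := Good.diag hg
  have h3 : Good h Cᶜ := good_of_clb hC fun δ hδ => hδ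
  refine (h2.union h3).mono fun δ _ => ?_
  by_cases hδ : δ ∈ C
  · exact Or.inl (hCg δ hδ)
  · exact Or.inr hδ

end Pool.Agent.H79.MC
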