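import Pool.Agent.H79.MC.Trf
import Pool.Agent.H79.MC.Gdi
import Pool.Agent.H79.MC.Ade
import Pool.Agent.Results.MP_4b9105_lc.LocalReduction

/-!
# Row Fin: the theorem

`K = ((2 : Cardinal) ^ ℵ₁).ord.ToType`, `i x = (ToType.toOrd x : Ordinal).toZFSet`, `X = k1`
(`LocalReduction.k1`, `w1_subset_k1`, `ctbl_k1_mem`, `card_k1`); `i` is injective and
`z ∈ k1 ↔ ∃ x, i x = z` as in `i1_injective`, `mem_w1`.  `#K = 2 ^ ℵ₁ ≤ 2 ^ ℵ₀` (`mk_toType`,
`card_ord`, `two_pow`).  `K` is nonempty (`2 ^ ℵ₁ ≠ 0`), so `Inhabited K` by `Classical`.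
`good_univ` and `sigLaw_of_good` give `SigLaw k1 (Order.succ (2 ^ ℵ₁))`, and `reduction` (as in
the end of `LocalReduction.lean`) gives the law.
-/

namespace Pool.Agent.H79.MC

open Cardinal Ordinal Set
open Pool.Agent.Results.MP_4b9105_lc.CanonicalBounding
open Pool.Agent.H71.ZO
open Pool.Agent.Results.MP_4b9105_lc.LocalReduction

/-- The set coding an element of the initial ordinal of `2 ^ ℵ₁`. -/
noncomputable def fin_i (x : ((2 : Cardinal.{0}) ^ ℵ₁).ord.ToType) : ZFSet.{0} :=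
  (ToType.toOrd x : Ordinal.{0}).toZFSet

theorem fin_inj : Function.Injective fin_i := by
  intro x y h
  exact ToType.mk.symm.injective (Subtype.ext (toZFSet_injective h))

theorem fin_mem (z : ZFSet.{0}) : z ∈ k1 ↔ ∃ x, fin_i x = z := by
  rw [k1, mem_toZFSet_iff]
  constructor
  · rintro ⟨a, ha, rfl⟩
    exact ⟨ToType.mk ⟨a, ha⟩, by simp [fin_i]⟩
  · rintro ⟨η, rfl⟩
    exact ⟨_, (ToType.toOrd η).2, rfl⟩

theorem main (hMM : MMc) : ZeroOneLaw := by
  have h1 := two_pow hMM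
  have hinf : ℵ₀ ≤ (2 : Cardinal.{0}) ^ ℵ₁ := (aleph0_le_aleph 1).trans (cantor _).le
  have hr : (Order.succ ((2 : Cardinal.{0}) ^ ℵ₁)).IsRegular := isRegular_succ hinf
  have hK : #((2 : Cardinal.{0}) ^ ℵ₁).ord.ToType = 2 ^ ℵ₁ := by
    rw [mk_toType, card_ord]
  have hne : Nonempty ((2 : Cardinal.{0}) ^ ℵ₁).ord.ToType := by
    rw [← mk_ne_zero_iff, hK]
    intro h0
    rw [h0] at hinf
    exact absurd hinf (not_le.2 aleph0_pos)
  have : Inhabited ((2 : Cardinal.{0}) ^ ℵ₁).ord.ToType := Classical.inhabited_of_nonempty hne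
  have hsig : SigLaw k1 (Order.succ (2 ^ ℵ₁)) :=
    sigLaw_of_good w1_subset_k1 hr.aleph0_le ctbl_k1_mem fin_i fin_inj fin_mem
      fun h => good_univ hMM h1 (hK.le.trans h1) h
  intro X θ hX _ hH
  refine reduction w1_subset_k1 ctbl_k1_mem hsig hX hH ?_
  rw [card_k1]
  exact min_le_right _ _

end Pool.Agent.H79.MC
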