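import Pool.Agent.H79.MC.Op

/-!
# Row Mdl: models

`mdl`.  Let `o` be the least element of `W1` (`exists_zero_W1`).  For `ζ : W1` let
`A' ζ = clo G (A ∪ ι '' Iic ζ)`, a countable set (`clo_countable`, `countable_Iio_W1`).  Let
`F ζ = {η | ι η ∈ A' ζ} ∪ {ζ⁺}` where `ζ⁺ > ζ` is chosen (`exists_gt_W1`); it is countable because
`ι` is injective (`Set.Countable.preimage`).  By `stat_meets` and `clb_cp F` there is `δ ∈ S` with
some `ζ < δ` and `η < δ` for all `η ∈ F ζ`, `ζ < δ`.  Put `M = clo G (A ∪ ι '' Iio δ)`.  It is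
countable, contains `A` and `ι '' Iio δ` and is closed (`clv_clo`, `subset_clo`).  If `ι η ∈ M`,
then by `clo_finitary` `ι η ∈ clo G a` for a finite `a ⊆ A ∪ ι '' Iio δ`; the finitely many
elements of `a` outside `A` are `ι ζ` with `ζ < δ`, so (take the maximum of the `ζ`, or some
`ζ0 < δ` if there are none; induction on the finset `a`) `a ⊆ A ∪ ι '' Iic ζ` for some `ζ < δ`,
hence `ι η ∈ A' ζ` (`clo_mono`) and `η ∈ F ζ`, `η < δ`.

`lift_mdl`.  Let `G s = j ⁻¹' clo G' (j '' s)`; it is countable since `j` is injective.  Take `M`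
from `hP` and put `M' = clo G' (j '' M)`.  It is countable and closed under `G'`, and
`j ⁻¹' M' = M`: `⊇` is `subset_clo`; if `j x ∈ M'`, then by `clo_finitary` `j x ∈ clo G' a` with
`a ⊆ j '' M` finite, `a = j '' s` for a finite `s ⊆ M` (e.g. `a.preimage j`, or
`Finset.subset_set_image_iff`), so `x ∈ G s ⊆ M`.
-/

namespace Pool.Agent.H79.MC

open Cardinal Ordinal Set
open Pool.Agent.Results.MP_4b9105_lc.CanonicalBounding

theorem mdl_fin {V : Type} (ι : W1 → V) (A : Set V) (δ : W1) (hδ : ∃ ζ, ζ < δ)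
    (a : Finset V) (ha : (a : Set V) ⊆ A ∪ ι '' Iio δ) :
    ∃ ζ < δ, (a : Set V) ⊆ A ∪ ι '' Iic ζ := by
  classical
  induction a using Finset.induction_on with
  | empty =>
    obtain ⟨ζ, hζ⟩ := hδ
    exact ⟨ζ, hζ, by simp⟩
  | insert x s _ ih =>
    rw [Finset.coe_insert, insert_subset_iff] at ha
    obtain ⟨ζ, hζ, h1⟩ := ih ha.2
    rcases ha.1 with hx | ⟨η, hη, rfl⟩
    · exact ⟨ζ, hζ, by rw [Finset.coe_insert, insert_subset_iff]; exact ⟨Or.inl hx, h1⟩⟩
    · refine ⟨max ζ η, max_lt hζ hη, ?_⟩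
      rw [Finset.coe_insert, insert_subset_iff]
      refine ⟨Or.inr ⟨η, mem_Iic.2 (le_max_right ζ η), rfl⟩, h1.trans ?_⟩
      exact union_subset_union_right _ (image_mono (Iic_subset_Iic.2 (le_max_left _ _)))

theorem mdl {V : Type} (ι : W1 → V) (hι : Function.Injective ι) (G : Finset V → Set V)
    (hG : ∀ s, (G s).Countable) (A : Set V) (hA : A.Countable) {S : Set W1}
    (hS : IsStationary S) :
    ∃ M : Set V, M.Countable ∧ A ⊆ M ∧ Clv G M ∧ ∃ δ ∈ S, (∃ β, β < δ) ∧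
      ∀ η, ι η ∈ M ↔ η < δ := by
  choose nx hnx using exists_gt_W1
  have hIic : ∀ ζ : W1, (Iic ζ).Countable := fun ζ =>
    (countable_Iio_W1 (nx ζ)).mono fun x hx => lt_of_le_of_lt hx (hnx ζ)
  have hcl : ∀ ζ : W1, (clo G (A ∪ ι '' Iic ζ)).Countable := fun ζ =>
    clo_countable G hG (hA.union ((hIic ζ).image ι))
  have hF : ∀ ζ : W1, (ι ⁻¹' (clo G (A ∪ ι '' Iic ζ)) ∪ {nx ζ}).Countable := fun ζ =>
    ((hcl ζ).preimage hι).union (countable_singleton _)
  obtain ⟨δ, hδS, hδ1, hδ2⟩ := stat_meets hS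
    (clb_cp (fun ζ => ι ⁻¹' (clo G (A ∪ ι '' Iic ζ)) ∪ {nx ζ}) hF)
  refine ⟨clo G (A ∪ ι '' Iio δ), clo_countable G hG (hA.union ((countable_Iio_W1 δ).image ι)),
    subset_union_left.trans (subset_clo G _), clv_clo G _, δ, hδS, hδ1, fun η => ⟨fun h => ?_,
    fun h => subset_clo G _ (Or.inr ⟨η, h, rfl⟩)⟩⟩
  obtain ⟨a, ha, hηa⟩ := clo_finitary G h
  obtain ⟨ζ, hζ, haζ⟩ := mdl_fin ι A δ hδ1 a ha
  exact hδ2 ζ hζ η (Or.inl (clo_mono G haζ hηa))

theorem lift_mdl {V V' : Type} (j : V → V') (hj : Function.Injective j) (P : Set V → Prop)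
    (hP : ∀ G : Finset V → Set V, (∀ s, (G s).Countable) →
      ∃ M : Set V, M.Countable ∧ Clv G M ∧ P M)
    (G' : Finset V' → Set V') (hG' : ∀ s, (G' s).Countable) :
    ∃ M' : Set V', M'.Countable ∧ Clv G' M' ∧ P (j ⁻¹' M') := by
  classical
  obtain ⟨M, hMc, hM, hPM⟩ := hP (fun s => j ⁻¹' (clo G' (j '' (s : Set V)))) fun s =>
    ((clo_countable G' hG' ((s.countable_toSet).image j)).preimage hj)
  refine ⟨clo G' (j '' M), clo_countable G' hG' (hMc.image j), clv_clo G' _, ?_⟩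
  have he : j ⁻¹' (clo G' (j '' M)) = M := by
    refine Subset.antisymm (fun x hx => ?_) fun x hx => subset_clo G' _ ⟨x, hx, rfl⟩
    obtain ⟨a, ha, hxa⟩ := clo_finitary G' (show j x ∈ clo G' (j '' M) from hx)
    obtain ⟨s, hs, hsa⟩ := Finset.subset_set_image_iff.1 ha
    refine hM s hs ?_
    show j x ∈ clo G' (j '' (s : Set V))
    rw [← Finset.coe_image, hsa]
    exact hxa
  rw [he]
  exact hPM

end Pool.Agent.H79.MC
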