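import Pool.Agent.H79.MC.Bas

/-!
# Operations (proved)

`op4 f` is the operation given by a function `f` of four arguments with countable values; use it
for functions of fewer arguments too (ignore the others).
-/

namespace Pool.Agent.H79.MC

open Cardinal Ordinal Set
open Pool.Agent.Results.MP_4b9105_lc.CanonicalBounding

/-- The operation given by a function of four arguments. -/
def op4 {V : Type} (f : V → V → V → V → Set V) (s : Finset V) : Set V :=
  ⋃ a ∈ s, ⋃ b ∈ s, ⋃ c ∈ s, ⋃ d ∈ s, f a b c d

theorem op4_countable {V : Type} (f : V → V → V → V → Set V)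
    (hf : ∀ a b c d, (f a b c d).Countable) (s : Finset V) : (op4 f s).Countable :=
  s.countable_toSet.biUnion fun a _ => s.countable_toSet.biUnion fun b _ =>
    s.countable_toSet.biUnion fun c _ => s.countable_toSet.biUnion fun d _ => hf a b c d

theorem clv_op4 {V : Type} {f : V → V → V → V → Set V} {M : Set V} (h : Clv (op4 f) M)
    {a b c d : V} (ha : a ∈ M) (hb : b ∈ M) (hc : c ∈ M) (hd : d ∈ M) : f a b c d ⊆ M := by
  classical
  refine Subset.trans ?_ (h {a, b, c, d} ?_)
  · intro z hz
    exact mem_iUnion₂.2 ⟨a, by simp, mem_iUnion₂.2 ⟨b, by simp, mem_iUnion₂.2 ⟨c, by simp,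
      mem_iUnion₂.2 ⟨d, by simp, hz⟩⟩⟩⟩
  · intro z hz
    simp only [Finset.coe_insert, Finset.coe_singleton, mem_insert_iff, mem_singleton_iff] at hz
    rcases hz with rfl | rfl | rfl | rfl <;> assumption

theorem clv_union {V : Type} {G G' : Finset V → Set V} {M : Set V} :
    Clv (fun s => G s ∪ G' s) M ↔ Clv G M ∧ Clv G' M :=
  ⟨fun h => ⟨fun s hs => subset_union_left.trans (h s hs),
    fun s hs => subset_union_right.trans (h s hs)⟩,
    fun h s hs => union_subset (h.1 s hs) (h.2 s hs)⟩

theorem clv_const {V : Type} {A M : Set V} : Clv (fun _ => A) M ↔ A ⊆ M :=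
  ⟨fun h => h ∅ (by simp), fun h _ _ => h⟩

theorem clv_clo {V : Type} (G : Finset V → Set V) (A : Set V) : Clv G (clo G A) :=
  fun s hs => clo_closed G A s hs

end Pool.Agent.H79.MC
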