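import Pool.Agent.H79.MC.Op

/-!
# Row Qex: extensions in the chain poset `Gn (Qr h S)`

`qs_ne`: `m` = any element, `c = ∅`, `g = fun _ => default` (`Cls ∅`: `Lim ∅ δ` is impossible).

`qs_ext`: choose `α0` with `p.m < α0` and `β < α0` (`exists_gt2_W1`).  The set
`B = insert x (⋃ α ∈ p.c, range (p.g α))` is countable (`p.c ⊆ Iic p.m` is countable:
`countable_Iio_W1`) and nonempty, so `B = range e` for some `e : ℕ → K`
(`Set.Countable.exists_eq_range`).  Let `q`: `m = α0`, `c = insert α0 p.c`,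
`g ξ = if ξ = α0 then e else p.g ξ`.
* `cl`: as `Lim (insert α0 p.c) δ` with `δ ≤ α0` gives `Lim p.c δ`, so `δ ∈ p.c`; and `α0 < δ` is
  impossible (the element `> α0` of `insert α0 p.c` given by `Lim` with `β = α0`).
* `lb` trivial; `g0`: for `ξ > α0`, `ξ ≠ α0` and `ξ > p.m`.
* `rq` for `δ ∈ p.c`: `(Qr h S).loc` applied to `p.rq δ` (for `α ≤ δ ≤ p.m < α0`: `α ≠ α0`).
  For `δ = α0`: monotonicity: for `α ∈ c`, `α = α0` is trivial, and `α ∈ p.c`:
  `range (p.g α) ⊆ B = range e`; `Lim c α0` is false: with `β = p.m < α0` it would give `α ∈ c`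
  with `p.m < α < α0`, but `α ∈ p.c` gives `α ≤ p.m`; so the other two requirements are void.
`q ≤ p` clear.  An element `α` of `q.c` not in `p.c` is `α0`: `β < α0`, `x ∈ B = range (q.g α0)`.

`qs_step`: let `q0 ≤ p` be given by `qs_ext p x β` and `q ≤ q0`, `q ∈ D`.  There is `α0 ∈ q0.c`
with `β < α0`; if `α0 ∉ p.c` then `x ∈ range (q0.g α0)`.  Take from `qs_ext` more precisely (it is
in the statement): some `α0 ∈ q0.c`, `α0 ∉ p.c`.  Elements of `q0.c` are `≤ q0.m`, so they are in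
`q.c`.  Let `α ∈ q.c`, `α ∉ p.c`.  If `α ≤ q0.m`, then `α ∈ q0.c`, so `β < α` and
`x ∈ range (q0.g α) = range (q.g α)`.  If `q0.m < α`: `α0 ≤ q0.m < α`, `β < α0 < α`, and
`x ∈ range (q0.g α0) = range (q.g α0) ⊆ range (q.g α)` by the first part of the requirement
`q.rq α`.
-/

namespace Pool.Agent.H79.MC

open Cardinal Ordinal Set
open Pool.Agent.Results.MP_4b9105_lc.CanonicalBounding

theorem qs_ne {K : Type} [Inhabited K] (h : K → W1 → Set W1) (S : Set W1) :
    Nonempty (Gn (Qr h S)) := by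
  refine ⟨{ m := Classical.arbitrary W1, c := ∅, g := fun _ => default, bd := ?_, cl := ?_, lb := ?_, g0 := ?_, rq := ?_ }⟩
  · intro α hα; exact hα.elim
  · intro δ hδ
    obtain ⟨β, hβ⟩ := hδ.1
    obtain ⟨α, hα, _⟩ := hδ.2 β hβ
    exact hα.elim
  · intro ξ _; trivial
  · intro ξ _; rfl
  · intro δ hδ; exact hδ.elim

theorem qs_ext {K : Type} [Inhabited K] {h : K → W1 → Set W1} {S : Set W1}
    (p : Gn (Qr h S)) (x : K) (β : W1) :
    ∃ q ≤ p, (∃ α ∈ q.c, α ∉ p.c) ∧ (∃ α ∈ q.c, β < α) ∧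
      ∀ α ∈ q.c, α ∉ p.c → β < α ∧ x ∈ range (q.g α) := by
  classical
  obtain ⟨α0, hm, hβ⟩ := exists_gt2_W1 p.m β
  have hpc : p.c.Countable := ((countable_Iio_W1 α0).mono fun α hα => (p.bd α hα).trans_lt hm)
  have hB : (insert x (⋃ α ∈ p.c, range (p.g α))).Countable :=
    (hpc.biUnion fun α _ => countable_range _).insert x
  obtain ⟨e, he⟩ := hB.exists_eq_range ⟨x, mem_insert _ _⟩
  have hα0 : α0 ∉ p.c := fun hα => absurd (p.bd _ hα) (not_le.2 hm)
  have hg : ∀ ξ, ξ ≤ p.m → (if ξ = α0 then e else p.g ξ) = p.g ξ := by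
    intro ξ hξ
    rw [if_neg]
    rintro rfl
    exact absurd hξ (not_le.2 hm)
  let q : Gn (Qr h S) :=
    { m := α0
      c := insert α0 p.c
      g := fun ξ => if ξ = α0 then e else p.g ξ
      bd := by
        rintro α (rfl | hα)
        · exact le_rfl
        · exact ((p.bd α hα).trans_lt hm).le
      cl := by
        intro δ hδ
        rcases le_or_gt δ α0 with h1 | h1
        · right
          refine p.cl δ ⟨hδ.1, fun β' hβ' => ?_⟩
          obtain ⟨α, hα, h2, h3⟩ := hδ.2 β' hβ'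
          rcases hα with rfl | hα
          · exact absurd h3 (not_lt.2 h1)
          · exact ⟨α, hα, h2, h3⟩
        · obtain ⟨α, hα, h2, h3⟩ := hδ.2 α0 h1
          rcases hα with rfl | hα
          · exact absurd h2 (lt_irrefl _)
          · exact absurd ((p.bd α hα).trans_lt hm) (not_lt.2 h2.le)
      lb := fun _ _ => trivial
      g0 := by
        intro ξ hξ
        rw [if_neg hξ.ne']
        exact p.g0 ξ (hm.trans hξ)
      rq := by
        rintro δ (rfl | hδ)
        · refine ⟨?_, ?_, ?_⟩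
          · intro α hα hαδ
            dsimp only
            rw [if_pos rfl]
            rcases hα with rfl | hα
            · rw [if_pos rfl]
            · rw [hg α (p.bd α hα), ← he]
              intro y hy
              exact Or.inr (mem_biUnion hα hy)
          · intro hl
            obtain ⟨α, hα, h2, h3⟩ := hl.2 p.m hm
            rcases hα with rfl | hα
            · exact absurd h3 (lt_irrefl _)
            · exact absurd (p.bd α hα) (not_le.2 h2)
          · intro _ hl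
            obtain ⟨α, hα, h2, h3⟩ := hl.2 p.m hm
            rcases hα with rfl | hα
            · exact absurd h3 (lt_irrefl _)
            · exact absurd (p.bd α hα) (not_le.2 h2)
        · refine (Qr h S).loc p.c _ p.g _ δ ?_ ?_ (p.rq δ hδ)
          · intro α hα
            constructor
            · exact fun h1 => Or.inr h1
            · rintro (rfl | h1)
              · exact absurd (hα.trans (p.bd δ hδ)) (not_le.2 hm)
              · exact h1
          · intro α hα
            exact (hg α (hα.trans (p.bd δ hδ))).symm }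
  refine ⟨q, ⟨hm.le, ?_, hg⟩, ⟨α0, Or.inl rfl, hα0⟩, ⟨α0, Or.inl rfl, hβ⟩, ?_⟩
  · intro α hα
    constructor
    · rintro (rfl | h1)
      · exact absurd hα (not_le.2 hm)
      · exact h1
    · exact fun h1 => Or.inr h1
  · rintro α (rfl | hα) hα'
    · refine ⟨hβ, ?_⟩
      show x ∈ range (if α = α then e else p.g α)
      rw [if_pos rfl, ← he]
      exact mem_insert _ _
    · exact absurd hα hα'

theorem qs_step {K : Type} [Inhabited K] {h : K → W1 → Set W1} {S : Set W1}
    (D : Set (Gn (Qr h S))) (hD : ∀ p, ∃ q ≤ p, q ∈ D) (p : Gn (Qr h S)) (x : K) (β : W1) :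
    ∃ q ≤ p, q ∈ D ∧ (∃ α ∈ q.c, β < α) ∧
      ∀ α ∈ q.c, α ∉ p.c → β < α ∧ x ∈ range (q.g α) := by
  obtain ⟨q0, hq0, ⟨α0, hα0, hα0'⟩, ⟨α1, hα1, hα1'⟩, hall⟩ := qs_ext p x β
  obtain ⟨q, hq, hqD⟩ := hD q0
  have hle := Gn.le_def.1 hq
  refine ⟨q, hq.trans hq0, hqD, ⟨α1, (hle.2.1 α1 (q0.bd α1 hα1)).2 hα1, hα1'⟩, ?_⟩
  intro α hα hα'
  rcases le_or_gt α q0.m with h1 | h1
  · rw [hle.2.2 α h1]
    exact hall α ((hle.2.1 α h1).1 hα) hα'
  · obtain ⟨h2, h3⟩ := hall α0 hα0 hα0'
    have h4 : α0 ≤ q0.m := q0.bd α0 hα0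
    have h5 : α0 < α := h4.trans_lt h1
    refine ⟨h2.trans h5, ?_⟩
    refine (q.rq α hα).1 α0 ((hle.2.1 α0 h4).2 hα0) h5.le ?_
    rw [hle.2.2 α0 h4]
    exact h3

end Pool.Agent.H79.MC
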