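import Pool.Agent.H79.MC.Mdl
import Pool.Agent.H79.MC.Qex

/-!
# Row Qco: the core of the preservation argument for the chain poset

For a condition `p`, `ξ γ : W1`, `x : K` choose by `qs_step` (with
`D = {q | ∃ η, f.R ξ q η}`, dense by `f.dense`, and `β = max γ ξ`) a condition
`r p ξ x γ ≤ p` and `et p ξ x γ` with `f.R ξ (r p ξ x γ) (et p ξ x γ)`, an element of `(r ..).c`
above `max γ ξ`, and `max γ ξ < α`, `x ∈ range ((r ..).g α)` for `α ∈ (r ..).c`, `α ∉ p.c`.  Let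
`Z p ξ : K → Set W1`, `Z p ξ x = {α | (∃ ζ, ζ < α) ∧ ∀ γ < α, (r p ξ x γ).m < α}`; `Clb (Z p ξ x)`
by `clb_cf`.

Let `P M` (for `M : Set (Vt K)`) be: `∃ δ ∈ T, (∃ β, β < δ) ∧ Trv M δ ∧ (δ ∈ S → ¬ Type0 h M δ)`.
For every operation `G` on `Vt K` with countable values there is a countable closed `M` with
`P M`: by `stat_or hT S` either `T ∩ S` is stationary, then use `hS` (`Pst`) for `T ∩ S` and the
operation `s ↦ G s ∪ {Vt.o o}`, `o` the least element of `W1` (so `Vt.o o ∈ M` and `o < δ`); or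
`T \ S` is stationary, then use `mdl` with `ι = Vt.o`, `A = ∅`.

Let `V' = Vt K ⊕ Gn (Qr h S)`, `j = Sum.inl`.  Let `G'` be the union of the constant operation
`{inr p0, inl (Vt.k default), inl (Vt.o o)}` and `op4` of the function `φ` with (all other
arguments go to `∅`)
`φ (inr p) (inl (Vt.o ξ)) (inl (Vt.k x)) (inl (Vt.o γ)) =
  {inl (Vt.o p.m), inl (Vt.z (Z p ξ)), inr (r p ξ x γ), inl (Vt.o (et p ξ x γ))}`.
By `lift_mdl` there is a countable `M'` closed under `G'` with `P (inl ⁻¹' M')`; let `δ` be given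
by `P`, `M = inl ⁻¹' M'`, and `N = {p | inr p ∈ M'}`.  Then `o < δ`, `p0 ∈ N`.  For `p ∈ N`
(arguments `p, o, default, o`): `Vt.o p.m ∈ M`, so `p.m < δ` (`Trv`).  Let `p ∈ N`, `ξ < δ`; then
`Vt.o ξ ∈ M`, `Vt.z (Z p ξ) ∈ M`.
* If `δ ∈ S`: as `¬ Type0 h M δ` and `Vt.z (Z p ξ) ∈ M`, there are `x` with `Vt.k x ∈ M`,
  `α ∈ Z p ξ x`, `α < δ`, `Hit h δ {x} α`, i.e. `γ < α` with `β ∈ h x δ` for `γ < β ≤ α`.  Then
  `γ < δ`, so `q = r p ξ x γ ∈ N`, and `q.m < α` because `α ∈ Z p ξ x`.  For `α' ∈ q.c`,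
  `α' ∉ p.c`: `γ < α' ≤ q.m < α` and `x ∈ range (q.g α')`; so `Hit h δ (range (q.g α')) α'`, with
  the witnesses `x, γ`.
* If `δ ∉ S`: `q = r p ξ default o`.
In both cases `q ≤ p`, `q ∈ N`, some `α ∈ q.c` is `> ξ`, and `η = et ..` satisfies `Vt.o η ∈ M`,
so `η < δ`, and `f.R ξ q η`.
-/

namespace Pool.Agent.H79.MC

open Cardinal Ordinal Set
open Pool.Agent.Results.MP_4b9105_lc.CanonicalBounding

/-- The closure operation of `qs_core`. -/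
def qco_phi {K : Type} [Inhabited K] {h : K → W1 → Set W1} {S : Set W1}
    (Z : Gn (Qr h S) → W1 → K → Set W1) (r : Gn (Qr h S) → W1 → K → W1 → Gn (Qr h S))
    (et : Gn (Qr h S) → W1 → K → W1 → W1) :
    Vt K ⊕ Gn (Qr h S) → Vt K ⊕ Gn (Qr h S) → Vt K ⊕ Gn (Qr h S) → Vt K ⊕ Gn (Qr h S) →
      Set (Vt K ⊕ Gn (Qr h S))
  | Sum.inr p, Sum.inl (Vt.o ξ), Sum.inl (Vt.k x), Sum.inl (Vt.o γ) =>
      {Sum.inl (Vt.o p.m), Sum.inl (Vt.z (Z p ξ)), Sum.inr (r p ξ x γ),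
        Sum.inl (Vt.o (et p ξ x γ))}
  | _, _, _, _ => ∅

theorem qco_phi_countable {K : Type} [Inhabited K] {h : K → W1 → Set W1} {S : Set W1}
    (Z : Gn (Qr h S) → W1 → K → Set W1) (r : Gn (Qr h S) → W1 → K → W1 → Gn (Qr h S))
    (et : Gn (Qr h S) → W1 → K → W1 → W1) (a b c d : Vt K ⊕ Gn (Qr h S)) :
    (qco_phi Z r et a b c d).Countable := by
  unfold qco_phi
  split
  · exact (((countable_singleton _).insert _).insert _).insert _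
  · exact countable_empty

/-- Models for the two kinds of ordinals. -/
theorem qco_models {K : Type} {h : K → W1 → Set W1} {S : Set W1} (hS : Pst h S)
    {T : Set W1} (hT : IsStationary T) (G : Finset (Vt K) → Set (Vt K))
    (hG : ∀ s, (G s).Countable) :
    ∃ M : Set (Vt K), M.Countable ∧ Clv G M ∧
      ∃ δ ∈ T, (∃ β, β < δ) ∧ Trv M δ ∧ (δ ∈ S → ¬ Type0 h M δ) := by
  rcases stat_or hT S with h1 | h1
  · obtain ⟨o, -⟩ := exists_zero_W1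
    obtain ⟨M, hMc, hMG, δ, hδ, hMδ, hnt⟩ := hS (T ∩ S) inter_subset_right h1
      (fun s => G s ∪ {Vt.o o}) (fun s => (hG s).union (countable_singleton _))
    obtain ⟨hc1, hc2⟩ := (clv_union (G' := fun _ => {Vt.o o})).1 hMG
    have ho : Vt.o o ∈ M := clv_const.1 hc2 rfl
    exact ⟨M, hMc, hc1, δ, hδ.1, ⟨o, (hMδ o).1 ho⟩, hMδ, fun _ => hnt⟩
  · obtain ⟨M, hMc, -, hMG, δ, hδ, hβ, hMδ⟩ := mdl (V := Vt K) Vt.o
      (fun a b hab => Vt.o.inj hab) G hG ∅ countable_empty h1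
    exact ⟨M, hMc, hMG, δ, hδ.1, hβ, hMδ, fun h2 => absurd h2 hδ.2⟩

theorem qs_core {K : Type} [Inhabited K] {h : K → W1 → Set W1} {S : Set W1} (hS : Pst h S)
    {T : Set W1} (hT : IsStationary T) (f : FName (Gn (Qr h S))) (p0 : Gn (Qr h S)) :
    ∃ δ ∈ T, (∃ β, β < δ) ∧ ∃ N : Set (Gn (Qr h S)), p0 ∈ N ∧ (∀ p ∈ N, p.m < δ) ∧
      ∀ p ∈ N, ∀ ξ < δ, ∃ q ∈ N, q ≤ p ∧ (∃ α ∈ q.c, ξ < α) ∧ (∃ η < δ, f.R ξ q η) ∧
        (δ ∈ S → ∀ α ∈ q.c, α ∉ p.c → Hit h δ (range (q.g α)) α) := by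
  obtain ⟨o, ho⟩ := exists_zero_W1
  have hstep : ∀ (p : Gn (Qr h S)) (ξ : W1) (x : K) (γ : W1),
      ∃ q ≤ p, q ∈ {q | ∃ η, f.R ξ q η} ∧ (∃ α ∈ q.c, max γ ξ < α) ∧
        ∀ α ∈ q.c, α ∉ p.c → max γ ξ < α ∧ x ∈ range (q.g α) := fun p ξ x γ =>
    qs_step {q | ∃ η, f.R ξ q η} (fun p => by
      obtain ⟨q, hq, η, hη⟩ := f.dense ξ p
      exact ⟨q, hq, η, hη⟩) p x (max γ ξ)
  choose r hr1 hr2 hr3 hr4 using hstep
  choose et het using hr2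
  let Z : Gn (Qr h S) → W1 → K → Set W1 := fun p ξ x =>
    {α | (∃ ζ, ζ < α) ∧ ∀ γ < α, (r p ξ x γ).m < α}
  have hZ : ∀ p ξ x, Clb (Z p ξ x) := fun p ξ x => clb_cf fun γ => (r p ξ x γ).m
  let φ := qco_phi Z r et
  let A0 : Set (Vt K ⊕ Gn (Qr h S)) :=
    {Sum.inr p0, Sum.inl (Vt.k default), Sum.inl (Vt.o o)}
  obtain ⟨M', hM'c, hM'G, δ, hδT, hβ, hTrv, hnt⟩ := lift_mdl
    (Sum.inl : Vt K → Vt K ⊕ Gn (Qr h S)) Sum.inl_injective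
    (fun M => ∃ δ ∈ T, (∃ β, β < δ) ∧ Trv M δ ∧ (δ ∈ S → ¬ Type0 h M δ))
    (fun G hG => qco_models hS hT G hG) (fun s => A0 ∪ op4 φ s)
    (fun s => (((countable_singleton _).insert _).insert _).union
      (op4_countable φ (qco_phi_countable Z r et) s))
  obtain ⟨hc1, hc2⟩ := (clv_union (G := fun _ => A0)).1 hM'G
  have hA0 : A0 ⊆ M' := clv_const.1 hc1
  have hp0 : Sum.inr p0 ∈ M' := hA0 (by simp [A0])
  have hk0 : Sum.inl (Vt.k default) ∈ M' := hA0 (by simp [A0])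
  have hoδ : o < δ := by
    obtain ⟨β, hβ⟩ := hβ
    exact (ho β).trans_lt hβ
  have hord : ∀ η, Sum.inl (Vt.o η) ∈ M' ↔ η < δ := hTrv
  have key : ∀ p, Sum.inr p ∈ M' → ∀ ξ < δ, ∀ x, Sum.inl (Vt.k x) ∈ M' → ∀ γ < δ,
      Sum.inl (Vt.o p.m) ∈ M' ∧ Sum.inl (Vt.z (Z p ξ)) ∈ M' ∧ Sum.inr (r p ξ x γ) ∈ M' ∧
        Sum.inl (Vt.o (et p ξ x γ)) ∈ M' := by
    intro p hp ξ hξ x hx γ hγ
    have h1 : φ (Sum.inr p) (Sum.inl (Vt.o ξ)) (Sum.inl (Vt.k x)) (Sum.inl (Vt.o γ)) ⊆ M' :=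
      clv_op4 hc2 hp ((hord ξ).2 hξ) hx ((hord γ).2 hγ)
    have h2 : φ (Sum.inr p) (Sum.inl (Vt.o ξ)) (Sum.inl (Vt.k x)) (Sum.inl (Vt.o γ)) =
        {Sum.inl (Vt.o p.m), Sum.inl (Vt.z (Z p ξ)), Sum.inr (r p ξ x γ),
        Sum.inl (Vt.o (et p ξ x γ))} := rfl
    rw [h2] at h1
    exact ⟨h1 (by simp), h1 (by simp), h1 (by simp), h1 (by simp)⟩
  refine ⟨δ, hδT, hβ, {p | Sum.inr p ∈ M'}, hp0, ?_, ?_⟩
  · intro p hp
    exact (hord _).1 (key p hp o hoδ default hk0 o hoδ).1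
  · intro p hp ξ hξ
    by_cases hδS : δ ∈ S
    · have hex : ∃ x, Sum.inl (Vt.k x) ∈ M' ∧ ∃ α ∈ Z p ξ x, α < δ ∧ Hit h δ {x} α := by
        by_contra hno
        push Not at hno
        exact hnt hδS ⟨Z p ξ, (key p hp ξ hξ default hk0 o hoδ).2.1, hZ p ξ,
          fun x hx α hα hαδ hh => hno x hx α hα hαδ hh⟩
      obtain ⟨x, hx, α, hα, hαδ, x', hx', γ, hγα, hγ⟩ := hex
      obtain rfl : x' = x := hx'
      obtain ⟨-, -, hk3, hk4⟩ := key p hp ξ hξ x' hx γ (hγα.trans hαδ)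
      refine ⟨r p ξ x' γ, hk3, hr1 p ξ x' γ, ?_, ⟨et p ξ x' γ, (hord _).1 hk4, het p ξ x' γ⟩, ?_⟩
      · obtain ⟨α', h1, h2⟩ := hr3 p ξ x' γ
        exact ⟨α', h1, (le_max_right γ ξ).trans_lt h2⟩
      · intro _ α' hα' hα'p
        obtain ⟨h1, h2⟩ := hr4 p ξ x' γ α' hα' hα'p
        refine ⟨x', h2, γ, (le_max_left γ ξ).trans_lt h1, fun β hβ1 hβ2 => hγ β hβ1 ?_⟩
        exact hβ2.trans (((r p ξ x' γ).bd α' hα').trans (hα.2 γ hγα).le)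
    · obtain ⟨-, -, hk3, hk4⟩ := key p hp ξ hξ default hk0 o hoδ
      refine ⟨r p ξ default o, hk3, hr1 p ξ default o, ?_,
        ⟨et p ξ default o, (hord _).1 hk4, het p ξ default o⟩, fun h2 => absurd h2 hδS⟩
      obtain ⟨α', h1, h2⟩ := hr3 p ξ default o
      exact ⟨α', h1, (le_max_right o ξ).trans_lt h2⟩

end Pool.Agent.H79.MC
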