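import Pool.Agent.H79.MC.Qpr
import Pool.Agent.H79.MC.Gfa
import Pool.Agent.H79.MC.Qex

/-!
# Row Qgd: the chain given by the forcing axiom

Apply `gn_fa` to `Qr h S`: `qs_ne`, `gn_card` (`#(ℕ → K) = #K ^ ℵ₀ ≤ (2 ^ ℵ₀) ^ ℵ₀ = 2 ^ ℵ₀`),
`qs_pres`, `qs_ext`.  We get `C`, `e : W1 → ℕ → K` with `Clb C` and the requirement at all
`δ ∈ C`.  `Chn C e`: `mono`: the first part of the requirement at `β`; `cont`: `Lim C δ` implies
`δ ∈ C`, use the second part.

`Good h S`: choose `nx : W1 → W1` with `nx β ∈ C`, `β < nx β`.  Let `G` be the union of the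
constant operation `{Vt.c C e, Vt.o o}` (`o` the least element of `W1`, or any element) and of
`op4` of the function mapping `(Vt.o β, _, _, _)` to `{Vt.o (nx β)}` and everything else to `∅`.
Let `M` be countable and closed under `G`, `δ ∈ S`, `Trv M δ`.  Then `o < δ` and `nx β < δ` for
`β < δ`, so `Lim C δ`, `δ ∈ C`.  By the third part of the requirement at `δ` there is `γ < δ` with
`Hit h δ (range (e α)) α` for `α ∈ C`, `γ < α < δ`.  So `Type1 h M δ`.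
-/

namespace Pool.Agent.H79.MC

open Cardinal Ordinal Set
open Pool.Agent.Results.MP_4b9105_lc.CanonicalBounding

theorem qgd_card {K : Type} (hK : #K ≤ 2 ^ ℵ₀) : #(ℕ → K) ≤ 2 ^ ℵ₀ := by
  have h0 : #(ℕ → K) = #K ^ ℵ₀ := by
    rw [← mk_nat, Cardinal.power_def]
  rw [h0]
  calc #K ^ ℵ₀ ≤ (2 ^ ℵ₀) ^ ℵ₀ := Cardinal.power_le_power_right hK
    _ = 2 ^ ℵ₀ := by rw [← Cardinal.power_mul, Cardinal.aleph0_mul_aleph0]

/-- The operation mapping `β` to `nx β`. -/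
def qgdF {K : Type} (nx : W1 → W1) : Vt K → Vt K → Vt K → Vt K → Set (Vt K)
  | Vt.o β, _, _, _ => {Vt.o (nx β)}
  | _, _, _, _ => ∅

theorem qgdF_countable {K : Type} (nx : W1 → W1) (a b c d : Vt K) :
    (qgdF nx a b c d).Countable := by
  cases a <;> simp [qgdF]

theorem qs_good (hMM : MMc) (h1 : (2 : Cardinal.{0}) ^ ℵ₁ ≤ 2 ^ ℵ₀) {K : Type} [Inhabited K]
    (hK : #K ≤ 2 ^ ℵ₀) {h : K → W1 → Set W1} {S : Set W1} (hS : Pst h S) : Good h S := by
  obtain ⟨C, e, hC, -, hreq⟩ := gn_fa hMM (Qr h S) (qs_ne h S) (gn_card _ h1 (qgd_card hK))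
    (qs_pres hS) (fun p β => by
      obtain ⟨q, hq, -, h2, -⟩ := qs_ext p default β
      exact ⟨q, hq, h2⟩)
  have hch : Chn C e := ⟨hC, fun α hα β hβ hab => (hreq β hβ).1 α hα hab,
    fun δ hδ => (hreq δ (hC.1 δ hδ)).2.1 hδ⟩
  choose nx hnx1 hnx2 using hC.2
  obtain ⟨o, -⟩ := exists_gt_W1 (nx (Classical.arbitrary W1))
  refine ⟨fun s => {Vt.c C e, Vt.o o} ∪ op4 (qgdF nx) s, fun s => ?_, ?_⟩
  · exact ((countable_singleton _).insert _).union (op4_countable _ (qgdF_countable nx) s)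
  · intro M _ hM δ hδS hT
    obtain ⟨hM1, hM2⟩ := clv_union.1 hM
    have hM3 := clv_const.1 hM1
    have hc : Vt.c C e ∈ M := hM3 (by simp)
    have ho : o < δ := (hT o).1 (hM3 (by simp))
    have hn : ∀ β < δ, nx β < δ := by
      intro β hβ
      have hb : (Vt.o β : Vt K) ∈ M := (hT β).2 hβ
      exact (hT _).1 (clv_op4 hM2 hb hb hb hb rfl)
    have hlim : Lim C δ := ⟨⟨o, ho⟩, fun β hβ => ⟨nx β, hnx1 β, hnx2 β, hn β hβ⟩⟩
    right
    exact ⟨C, e, hc, hch, (hreq δ (hC.1 δ hlim)).2.2 hδS hlim⟩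

end Pool.Agent.H79.MC
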