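import Pool.Agent.H79.MC.Qco
import Pool.Agent.H79.MC.Gnp

/-!
# Row Qpr: the chain poset preserves stationary sets

Let `T` be stationary, `f` a name, `p0` a condition; take `δ ∈ T` and `N` from `qs_core` and
`a : ℕ → W1` with `range a = Iio δ` (`exists_enum_W1`).  By recursion on `n` (on the subtype of
`N`) get `pp : ℕ → Gn (Qr h S)`, `pp 0 = p0`, `pp n ∈ N`, `pp (n+1) ≤ pp n`, some
`α ∈ (pp (n+1)).c` with `a n < α`, `∃ η < δ, f.R (a n) (pp (n+1)) η`, and if `δ ∈ S` then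
`Hit h δ (range ((pp (n+1)).g α)) α` for `α ∈ (pp (n+1)).c`, `α ∉ (pp n).c`.
The set `B = ⋃ n, ⋃ α ∈ (pp n).c, range ((pp n).g α)` is countable (`(pp n).c ⊆ Iic (pp n).m`) and
nonempty (`(pp 1).c` is nonempty), so `B = range l` with `l : ℕ → K`.
`gn_lim` applies: `hm` from `pp n ∈ N`; `hc`: `β = a n`; `Qr` has trivial labels.  The requirement
at `δ`, for `c` and `g` as in `gn_lim` (`g δ = l`):
* `α ∈ c`, `α ≤ δ`: if `α = δ` trivial; if `α ∈ (pp n).c`, `α ≤ (pp n).m`, so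
  `g α = (pp n).g α` and `range (g α) ⊆ B = range (g δ)`;
* continuity: `x ∈ range (g δ) = B`, `x ∈ range ((pp n).g α)`, `α ∈ (pp n).c`,
  `α ≤ (pp n).m < δ`, `g α = (pp n).g α`;
* if `δ ∈ S`: `γ = (pp 0).m < δ`.  Let `α ∈ c`, `γ < α < δ`; so `α ∈ (pp n).c` for some `n`; take
  the least such `n` (`Nat.find`).  `n ≠ 0` since elements of `(pp 0).c` are `≤ (pp 0).m = γ`.
  `n = k + 1`, `α ∉ (pp k).c`, so `Hit h δ (range ((pp n).g α)) α`, and `g α = (pp n).g α`.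
We get `q` with `q ≤ pp n` for all `n`.  For `ξ < δ`, `ξ = a n`, and `r ≤ q`: `r' = r` and
`η < δ` with `f.R (a n) (pp (n+1)) η`, so `f.R ξ r η` by `f.down` (`r ≤ q ≤ pp (n+1)`).
-/

namespace Pool.Agent.H79.MC

open Cardinal Ordinal Set
open Pool.Agent.Results.MP_4b9105_lc.CanonicalBounding

theorem qs_pres {K : Type} [Inhabited K] {h : K → W1 → Set W1} {S : Set W1} (hS : Pst h S) :
    PresStat (Gn (Qr h S)) := by
  classical
  intro T hT f p0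
  obtain ⟨δ, hδT, h0, N, hp0, hmN, hN⟩ := qs_core hS hT f p0
  obtain ⟨a, ha⟩ := exists_enum_W1 δ h0
  have haδ : ∀ n, a n < δ := by
    intro n
    have h1 : a n ∈ range a := ⟨n, rfl⟩
    rw [ha] at h1
    exact h1
  have hstep : ∀ (p : N) (n : ℕ), ∃ q : N, q.1 ≤ p.1 ∧ (∃ α ∈ q.1.c, a n < α) ∧
      (∃ η < δ, f.R (a n) q.1 η) ∧
      (δ ∈ S → ∀ α ∈ q.1.c, α ∉ p.1.c → Hit h δ (range (q.1.g α)) α) := by
    intro p n
    obtain ⟨q, hq, h1, h2, h3, h4⟩ := hN p.1 p.2 (a n) (haδ n)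
    exact ⟨⟨q, hq⟩, h1, h2, h3, h4⟩
  choose nx hnx using hstep
  obtain ⟨pq, hpq0, hpqs⟩ : ∃ pq : ℕ → N, pq 0 = ⟨p0, hp0⟩ ∧ ∀ n, pq (n + 1) = nx (pq n) n :=
    ⟨fun n => Nat.rec ⟨p0, hp0⟩ (fun n p => nx p n) n, rfl, fun n => rfl⟩
  obtain ⟨pp, hpp⟩ : ∃ pp : ℕ → Gn (Qr h S), ∀ n, pp n = (pq n).1 := ⟨fun n => (pq n).1, fun n => rfl⟩
  have hpp0 : pp 0 = p0 := by rw [hpp, hpq0]
  have hle : ∀ n, pp (n + 1) ≤ pp n := by
    intro n
    rw [hpp, hpp, hpqs]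
    exact (hnx (pq n) n).1
  have hel : ∀ n, ∃ α ∈ (pp (n + 1)).c, a n < α := by
    intro n
    rw [hpp, hpqs]
    exact (hnx (pq n) n).2.1
  have hR : ∀ n, ∃ η < δ, f.R (a n) (pp (n + 1)) η := by
    intro n
    rw [hpp, hpqs]
    exact (hnx (pq n) n).2.2.1
  have hHit : ∀ n, δ ∈ S → ∀ α ∈ (pp (n + 1)).c, α ∉ (pp n).c →
      Hit h δ (range ((pp (n + 1)).g α)) α := by
    intro n
    rw [hpp (n + 1), hpp n, hpqs]
    exact (hnx (pq n) n).2.2.2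
  have hm : ∀ n, (pp n).m < δ := by
    intro n
    rw [hpp]
    exact hmN _ (pq n).2
  have hcδ : ∀ n, ∀ α ∈ (pp n).c, α < δ := fun n α hα => ((pp n).bd α hα).trans_lt (hm n)
  obtain ⟨B, hB⟩ : ∃ B : Set K, B = ⋃ n, ⋃ α ∈ (pp n).c, range ((pp n).g α) := ⟨_, rfl⟩
  have hBmem : ∀ x, x ∈ B ↔ ∃ n, ∃ α ∈ (pp n).c, x ∈ range ((pp n).g α) := by
    intro x
    rw [hB]
    simp only [mem_iUnion, exists_prop]
  have hBc : B.Countable := by
    rw [hB]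
    refine countable_iUnion fun n => Set.Countable.biUnion ?_ fun α _ => countable_range _
    exact (countable_Iio_W1 δ).mono fun α hα => hcδ n α hα
  have hBne : B.Nonempty := by
    obtain ⟨α, hα, -⟩ := hel 0
    exact ⟨(pp (0 + 1)).g α 0, (hBmem _).2 ⟨0 + 1, α, hα, 0, rfl⟩⟩
  obtain ⟨l, hl⟩ := hBc.exists_eq_range hBne
  have hlim := gn_lim pp hle δ h0 hm (fun β hβ => by
    have h1 : β ∈ range a := by rw [ha]; exact hβ
    obtain ⟨n, rfl⟩ := h1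
    exact ⟨n + 1, hel n⟩) l trivial (fun c g hcc hg hgδ => by
    refine ⟨fun α hα hαδ => ?_, fun _ x hx => ?_, fun hδS _ => ?_⟩
    · rw [hgδ, ← hl]
      rcases (hcc α).1 hα with h1 | ⟨n, h1⟩
      · rw [h1, hgδ, ← hl]
      · rw [hg n α ((pp n).bd α h1)]
        exact fun x hx => (hBmem x).2 ⟨n, α, h1, hx⟩
    · rw [hgδ, ← hl, hBmem] at hx
      obtain ⟨n, α, h1, h2⟩ := hx
      refine ⟨α, (hcc α).2 (Or.inr ⟨n, h1⟩), hcδ n α h1, ?_⟩
      rw [hg n α ((pp n).bd α h1)]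
      exact h2
    · refine ⟨(pp 0).m, hm 0, fun α hα h1 h2 => ?_⟩
      have hex : ∃ n, α ∈ (pp n).c := by
        rcases (hcc α).1 hα with h3 | h3
        · exact absurd h3 (ne_of_lt h2)
        · exact h3
      obtain ⟨n, hn⟩ : ∃ n, n = Nat.find hex := ⟨_, rfl⟩
      have hn1 : α ∈ (pp n).c := by rw [hn]; exact Nat.find_spec hex
      have hn2 : ∀ k < n, α ∉ (pp k).c := by
        intro k hk
        rw [hn] at hk
        exact Nat.find_min hex hk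
      cases n with
      | zero => exact absurd ((pp 0).bd α hn1) (not_le.2 h1)
      | succ k =>
        have h3 := hHit k hδS α hn1 (hn2 k (Nat.lt_succ_self k))
        rw [hg (k + 1) α ((pp (k + 1)).bd α hn1)]
        exact h3)
  obtain ⟨q, hq, -, -⟩ := hlim
  refine ⟨q, hpp0 ▸ hq 0, δ, hδT, fun ξ hξ r hr => ?_⟩
  have h1 : ξ ∈ range a := by rw [ha]; exact hξ
  obtain ⟨n, rfl⟩ := h1
  obtain ⟨η, hη, h2⟩ := hR n
  exact ⟨r, le_rfl, η, hη, f.down _ _ _ _ h2 (hr.trans (hq (n + 1)))⟩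

end Pool.Agent.H79.MC
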