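import Pool.Agent.H79.MC.Op
import Pool.Agent.H71.ZO.Reduce

/-!
# Row Zcc: the club of `[X]^ω` given by a chain

Notation as in the row Zcz: `i` is a bijection of `K` with the set of the elements of `X`, `i1 η`
is the set coding `η : W1` (`i1_injective`, `mem_w1`, `mem_ctbl`, `exists_ctbl`, `ZFSet.mem_sep`;
`iUnion_mem_ctbl`, `ZFSet.coe_iUnion`, `ZFSet.mem_iUnion`).

* `closed`: `P n` increasing with `α n ∈ C`, `γ < α n`, `i1 η ∈ P n ↔ η < α n`,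
  `i (e (α n) m) ∈ P n` for all `m`.  As `i1 (α (n+1)) ∉ P (n+1) ⊇ P n`, `α n ≤ α (n+1)`.  Let
  `α'` be the least upper bound of the `α n` (least element of `{b | ∀ n, α n ≤ b}`).  If
  `α' = α n` for some `n`, then `α m = α'` for `m ≥ n`; `i1 η ∈ ⋃ P n ↔ η < α'`, and
  `i (e α' m) ∈ P n`.  Otherwise `Lim C α'`, so `α' ∈ C`, and `i (e α' m)`: by `hC.cont` there is
  `α'' ∈ C`, `α'' < α'` with `e α' m ∈ range (e α'')`; `α'' ≤ α n` for some `n`, and by `hC.mono`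
  `e α' m ∈ range (e (α n))`, so `i (e α' m) ∈ P n`.  In both cases
  `i1 η ∈ ⋃ P n ↔ ∃ n, η < α n ↔ η < α'` and `γ < α 0 ≤ α'`.
* `unbounded`: let `Q ∈ ctbl X`.  Choose `nx β ∈ C`, `β < nx β`.  Let
  `F ζ = {η | i1 η ∈ Q} ∪ {γ} ∪ {nx ζ} ∪ {η | ∃ m, i1 η = i (e (nx ζ) m)}`; it is countable.  Let
  `α` be a closure point of `F` (`clb_cp F`): there is `ζ0 < α`.  `Lim C α` (for `β < α`,
  `nx β ∈ F β`), so `α ∈ C`; `γ < α`.  Let `P` be the set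
  `Q ∪ {i1 η | η < α} ∪ {i (e α m) | m}`.  `i1 η ∈ P → η < α`: if `i1 η ∈ Q`, `η ∈ F ζ0`; if
  `i1 η = i (e α m)`: by `hC.cont` `e α m ∈ range (e α'')`, `α'' ∈ C`, `α'' < α`, and
  `α'' < nx α''`, so `e α m ∈ range (e (nx α''))` by `hC.mono`, hence `η ∈ F α''`, `η < α`.
-/

namespace Pool.Agent.H79.MC

open Cardinal Ordinal Set
open Pool.Agent.Results.MP_4b9105_lc.CanonicalBounding
open Pool.Agent.H71.ZO

theorem zcc_closed {X : ZFSet.{0}} {K : Type} (i : K → ZFSet.{0}) (C : Set W1)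
    (e : W1 → ℕ → K) (hC : Chn C e) (γ : W1) (P : ℕ → ZFSet.{0}) (hP : ∀ n, P n ⊆ P (n + 1))
    (hPc : ∀ n, P n ∈ ctbl X) (α : ℕ → W1) (h1 : ∀ n, α n ∈ C) (h2 : ∀ n, γ < α n)
    (h3 : ∀ n η, i1 η ∈ P n ↔ η < α n) (h4 : ∀ n m, i (e (α n) m) ∈ P n) :
    ZFSet.iUnion P ∈ ctbl X ∧ ∃ α ∈ C, γ < α ∧ (∀ η, i1 η ∈ ZFSet.iUnion P ↔ η < α) ∧
      ∀ m, i (e α m) ∈ ZFSet.iUnion P := by
  have hmono : ∀ n m, n ≤ m → P n ⊆ P m := by
    intro n m hnm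
    induction hnm with
    | refl => exact fun z hz => hz
    | step _ ih => exact fun z hz => hP _ (ih hz)
  have hα : ∀ n m, n ≤ m → α n ≤ α m := by
    intro n m hnm
    by_contra! hlt
    have h5 := hmono n m hnm ((h3 n (α m)).2 hlt)
    exact absurd ((h3 m (α m)).1 h5) (lt_irrefl _)
  obtain ⟨b, hb⟩ := bdd_W1 (range α) (countable_range α)
  obtain ⟨α', hα', hmin⟩ := wellFounded_lt.has_min {b : W1 | ∀ n, α n ≤ b}
    ⟨b, fun n => (hb (α n) ⟨n, rfl⟩).le⟩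
  have hlt : ∀ β < α', ∃ n, β < α n := by
    intro β hβ
    by_contra! hno
    exact hmin β hno hβ
  have hmem : ∀ η, i1 η ∈ ZFSet.iUnion P ↔ η < α' := by
    intro η
    rw [ZFSet.mem_iUnion]
    constructor
    · rintro ⟨n, hn⟩
      exact ((h3 n η).1 hn).trans_le (hα' n)
    · intro h
      obtain ⟨n, hn⟩ := hlt η h
      exact ⟨n, (h3 n η).2 hn⟩
  refine ⟨iUnion_mem_ctbl P hPc, α', ?_⟩
  by_cases hex : ∃ n, α n = α'
  · obtain ⟨n, hn⟩ := hex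
    refine ⟨hn ▸ h1 n, hn ▸ h2 n, hmem, fun m => ?_⟩
    rw [ZFSet.mem_iUnion]
    exact ⟨n, hn ▸ h4 n m⟩
  · have hltα : ∀ n, α n < α' := fun n => lt_of_le_of_ne (hα' n) fun h => hex ⟨n, h⟩
    have hlim : Lim C α' := by
      refine ⟨⟨α 0, hltα 0⟩, fun β hβ => ?_⟩
      obtain ⟨n, hn⟩ := hlt β hβ
      exact ⟨α n, h1 n, hn, hltα n⟩
    refine ⟨hC.clb.1 α' hlim, (h2 0).trans (hltα 0), hmem, fun m => ?_⟩
    obtain ⟨α'', h5, h6, h7⟩ := hC.cont α' hlim (e α' m) ⟨m, rfl⟩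
    obtain ⟨n, hn⟩ := hlt α'' h6
    obtain ⟨m', hm'⟩ := hC.mono α'' h5 (α n) (h1 n) hn.le h7
    rw [ZFSet.mem_iUnion]
    exact ⟨n, hm' ▸ h4 n m'⟩

theorem club_C {X : ZFSet.{0}} (hw : w1 ⊆ X) {K : Type} (i : K → ZFSet.{0})
    (hi : Function.Injective i) (hr : ∀ z, z ∈ X ↔ ∃ x, i x = z) (C : Set W1)
    (e : W1 → ℕ → K) (hC : Chn C e) (γ : W1) :
    IsClubX X (ZFSet.sep (fun P => ∃ α ∈ C, γ < α ∧ (∀ η, i1 η ∈ P ↔ η < α) ∧
      ∀ m, i (e α m) ∈ P) (ctbl X)) := by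
  refine ⟨?_, ?_, ?_⟩
  · intro P hP
    exact (ZFSet.mem_sep.1 hP).1
  · intro P hP hPE
    have hPc : ∀ n, P n ∈ ctbl X := fun n => (ZFSet.mem_sep.1 (hPE n)).1
    have h : ∀ n, ∃ α ∈ C, γ < α ∧ (∀ η, i1 η ∈ P n ↔ η < α) ∧ ∀ m, i (e α m) ∈ P n :=
      fun n => (ZFSet.mem_sep.1 (hPE n)).2
    choose α h1 h2 h3 h4 using h
    exact ZFSet.mem_sep.2 (zcc_closed i C e hC γ P hP hPc α h1 h2 h3 h4)
  · intro Q hQ
    obtain ⟨hQX, hQc⟩ := mem_ctbl.1 hQ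
    choose nx hnx hnx' using hC.clb.2
    obtain ⟨α, ⟨⟨ζ0, hζ0⟩, hcl⟩, _⟩ := (clb_cp (fun ζ => i1 ⁻¹' (Q : Set ZFSet.{0}) ∪ {γ} ∪
      {nx ζ} ∪ i1 ⁻¹' (range fun m => i (e (nx ζ) m))) (fun ζ =>
        (((hQc.preimage_of_injOn i1_injective.injOn).union (countable_singleton _)).union
          (countable_singleton _)).union
          ((countable_range _).preimage_of_injOn i1_injective.injOn))).2 γ
    have hnxα : ∀ β < α, nx β < α := fun β hβ => hcl β hβ _ (Or.inl (Or.inr rfl))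
    have hlim : Lim C α := ⟨⟨ζ0, hζ0⟩, fun β hβ => ⟨nx β, hnx β, hnx' β, hnxα β hβ⟩⟩
    have hγα : γ < α := hcl ζ0 hζ0 _ (Or.inl (Or.inl (Or.inr rfl)))
    obtain ⟨P, hP, hP'⟩ := exists_ctbl (X := X)
      ((Q : Set ZFSet.{0}) ∪ i1 '' Iio α ∪ range fun m => i (e α m)) (by
        rintro z ((hz | ⟨η, _, rfl⟩) | ⟨m, rfl⟩)
        · exact hQX hz
        · exact hw (mem_w1.2 ⟨η, rfl⟩)
        · exact (hr _).2 ⟨_, rfl⟩)
      ((hQc.union ((countable_Iio_W1 α).image i1)).union (countable_range _))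
    refine ⟨P, ZFSet.mem_sep.2 ⟨hP, α, hC.clb.1 α hlim, hγα, fun η => ?_, fun m => ?_⟩,
      fun z hz => (hP' z).2 (Or.inl (Or.inl hz))⟩
    · rw [hP']
      constructor
      · rintro ((hz | ⟨η', hη', he⟩) | ⟨m, hm⟩)
        · exact hcl ζ0 hζ0 η (Or.inl (Or.inl (Or.inl hz)))
        · rw [i1_injective he] at hη'
          exact hη'
        · obtain ⟨α'', h5, h6, h7⟩ := hC.cont α hlim (e α m) ⟨m, rfl⟩
          obtain ⟨m', hm'⟩ := hC.mono α'' h5 (nx α'') (hnx α'') (hnx' α'').le h7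
          refine hcl α'' h6 η (Or.inr ⟨m', ?_⟩)
          show i (e (nx α'') m') = i1 η
          rw [hm']
          exact hm
      · intro h
        exact Or.inl (Or.inr ⟨η, h, rfl⟩)
    · rw [hP']
      exact Or.inr ⟨m, rfl⟩

end Pool.Agent.H79.MC
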