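import Pool.Agent.H79.MC.Zcz
import Pool.Agent.H79.MC.Zcc
import Pool.Agent.H79.MC.Cod

/-!
# Row Trf: from the type level to the law for the mappings `sig`

`card_of_bij`: `i` gives a bijection between `K` and `(X : Set ZFSet)`, whose cardinality is
`lift.{1, 0} X.card` (`ZFSet.cardinalMk_coe_sort`, `Cardinal.lift_mk_eq'`, `Cardinal.lift_inj`).

`sigLaw_of_good`.  `SigLaw`, `sig`, `clubCl`, `Cl`, `Gini`, `Gel`, `Gmap`, `tr_dl`, `Tr` are in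
`Pool/Agent/H71/ZO/Reduce.lean` and `Stat.lean`.  Let `h0` be given and
`h x δ = h0 (i x) δ`; `hG h` gives an operation `G` on `Vt K`.  `X ∈ H θ` by `X_mem_H hH`;
`#K = X.card` and `ℵ₁ ≤ X.card` (`card_w1`, `ZFSet.card_mono hw`), so `exists_code_V` gives
`c : Vt K → ZFSet`.  Write `EZ Z` and `EC C e γ` for the sets of the rows Zcz and Zcc; they are
subsets of `ctbl X`, so in `H θ` (`H_subset hH`).
Let `G^` be the union of `Gini`, `Gel`, `Gmap (fun x => i1 (dl (x : Set ZFSet)))` and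
* `s ↦ {z | ∃ t : Finset (Vt K), (∀ v ∈ t, c v ∈ s) ∧ ∃ v ∈ G t, c v = z}` (countable: the set of
  these `t` is finite since `c` is injective, or countable by `countable_finset_subset` applied to
  the countable set `c ⁻¹' s`);
* `s ↦ {z | ∃ x, i x ∈ s ∧ z = c (Vt.k x)}`, `s ↦ {z | ∃ x, c (Vt.k x) ∈ s ∧ z = i x}`,
  `s ↦ {z | ∃ η, i1 η ∈ s ∧ z = c (Vt.o η)}`, `s ↦ {z | ∃ η, c (Vt.o η) ∈ s ∧ z = i1 η}`,
* `s ↦ {z | ∃ Z, c (Vt.z Z) ∈ s ∧ z = EZ Z}`,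
  `s ↦ {z | ∃ C e γ, c (Vt.c C e) ∈ s ∧ i1 γ ∈ s ∧ z = EC C e γ}`
(all countable: images of finite sets).  `D0 = {N | IsCtblElem θ N ∧ X ∈ N ∧ Cl (H θ) G^ N}` is a
club by `clubCl`.  Let `N ∈ D0`, `δ = dl N`; `Tr N δ` by `tr_dl` (`i1 η ∈ H θ`: `i1_mem_H'`, with
`ℵ₀ < θ` from `ℵ₀ < X.card < θ`, `card_lt_of_H`).  Let `M = {v | c v ∈ N}`: countable,
`Clv G M` (`c v ∈ H θ`), `Trv M δ` (`Vt.o η ∈ M ↔ i1 η ∈ N ↔ η < δ`), and
`Vt.k x ∈ M ↔ i x ∈ N` (`i x ∈ X ∈ H θ`, so `i x ∈ H θ` by `H_trans`).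
* `Type0 h M δ` with `Z`: `E = EZ Z ∈ N`, a club (`club_Z`); second alternative: let `P ∈ E`,
  `P ∈ N`, with `α`; `dl P = α` (`dl_eq`), so `i1 α ∈ N` and `α < δ`.  Suppose `P ∈ sig X h0 N`:
  there are `y ∈ P` and `γ` with `i1 γ ∈ P` (so `γ < α`) such that `β ∈ h0 y δ` for all `β > γ`
  with `∀ ζ < β, ∃ η ≥ ζ, i1 η ∈ P`; these are the `β` with `γ < β ≤ α` (for `β ≤ α` take
  `η = ζ`).  `y ∈ X` so `y = i x`, and `y ∈ N` (`Gel`: `P` is countable), so `Vt.k x ∈ M`,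
  `α ∈ Z x`, `Hit h δ {x} α`: contradiction.
* `Type1 h M δ` with `C, e, γ`: `i1 γ ∈ N`, `E = EC C e γ ∈ N`, a club (`club_C`); first
  alternative: let `P ∈ E`, `P ∈ N` with `α ∈ C`, `γ < α`; as before `α < δ`.  So
  `Hit h δ (range (e α)) α`: there are `m`, `γ' < α` with `β ∈ h0 (i (e α m)) δ` for
  `γ' < β ≤ α`.  `y = i (e α m) ∈ P`, `i1 γ' ∈ P`, and if `β > γ'` satisfies
  `∀ ζ < β, ∃ η ≥ ζ, i1 η ∈ P` then `β ≤ α` (otherwise `ζ = α` gives `η ≥ α`, `η < α`).  So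
  `P ∈ sig X h0 N`.
-/

namespace Pool.Agent.H79.MC

open Cardinal Ordinal Set
open Pool.Agent.Results.MP_4b9105_lc.CanonicalBounding
open Pool.Agent.H71.ZO

theorem card_of_bij {X : ZFSet.{0}} {K : Type} (i : K → ZFSet.{0})
    (hi : Function.Injective i) (hr : ∀ z, z ∈ X ↔ ∃ x, i x = z) : #K = X.card := by
  have hX : #(X : Set ZFSet.{0}) = lift.{1, 0} X.card := ZFSet.cardinalMk_coe_sort
  have e : K ≃ (X : Set ZFSet.{0}) :=
    Equiv.ofBijective (fun x => (⟨i x, (hr _).2 ⟨x, rfl⟩⟩ : (X : Set ZFSet.{0})))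
      ⟨fun x y h => hi (congrArg Subtype.val h), fun z => by
        obtain ⟨x, hx⟩ := (hr z.1).1 z.2
        exact ⟨x, Subtype.ext hx⟩⟩
  have h1 : lift.{1, 0} #K = lift.{0, 1} #(X : Set ZFSet.{0}) := lift_mk_eq'.2 ⟨e⟩
  rw [hX, Cardinal.lift_uzero] at h1
  exact Cardinal.lift_inj.1 h1

/-- The operation given by a function of two sets with countable values. -/
def trf_op (f : ZFSet.{0} → ZFSet.{0} → Set ZFSet.{0}) (s : Finset ZFSet.{0}) : Set ZFSet.{0} :=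
  ⋃ x ∈ s, ⋃ y ∈ s, f x y

theorem trf_op_countable {f : ZFSet.{0} → ZFSet.{0} → Set ZFSet.{0}}
    (hf : ∀ x y, (f x y).Countable) (s : Finset ZFSet.{0}) : (trf_op f s).Countable :=
  s.countable_toSet.biUnion fun x _ => s.countable_toSet.biUnion fun y _ => hf x y

theorem trf_op_spec {U M : Set ZFSet.{0}} {f : ZFSet.{0} → ZFSet.{0} → Set ZFSet.{0}}
    (h : Cl U (trf_op f) M) {x y z : ZFSet.{0}} (hx : x ∈ M) (hy : y ∈ M) (hz : z ∈ f x y)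
    (hzU : z ∈ U) : z ∈ M := by
  classical
  refine h {x, y} (by
    rw [Finset.coe_insert, Finset.coe_singleton]
    exact insert_subset hx (singleton_subset_iff.2 hy)) ⟨?_, hzU⟩
  exact mem_iUnion₂.2 ⟨x, by simp, mem_iUnion₂.2 ⟨y, by simp, hz⟩⟩

/-- The operation `G` on codes. -/
def trf_G {K : Type} (c : Vt K → ZFSet.{0}) (G : Finset (Vt K) → Set (Vt K))
    (s : Finset ZFSet.{0}) : Set ZFSet.{0} :=
  ⋃ t ∈ {t : Finset (Vt K) | (t : Set (Vt K)) ⊆ c ⁻¹' (s : Set ZFSet.{0})}, c '' (G t)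

theorem trf_G_countable {K : Type} {c : Vt K → ZFSet.{0}} (hc : Function.Injective c)
    {G : Finset (Vt K) → Set (Vt K)} (hG : ∀ t, (G t).Countable) (s : Finset ZFSet.{0}) :
    (trf_G c G s).Countable := by
  refine Countable.biUnion (countable_finset_subset (s.countable_toSet.preimage hc)) ?_
  exact fun t _ => (hG t).image c

theorem trf_clv {K : Type} {c : Vt K → ZFSet.{0}} {G : Finset (Vt K) → Set (Vt K)}
    {U N : Set ZFSet.{0}} (hc : ∀ v, c v ∈ U) (h : Cl U (trf_G c G) N) :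
    Clv G {v | c v ∈ N} := by
  classical
  intro t ht v hv
  refine h (t.image c) ?_ ⟨?_, hc v⟩
  · intro z hz
    rw [Finset.coe_image] at hz
    obtain ⟨w, hw, rfl⟩ := hz
    exact ht hw
  · refine mem_iUnion₂.2 ⟨t, ?_, v, hv, rfl⟩
    intro w hw
    show c w ∈ ((t.image c : Finset ZFSet.{0}) : Set ZFSet.{0})
    rw [Finset.coe_image]
    exact ⟨w, hw, rfl⟩

/-- The auxiliary function. -/
def trf_f {K : Type} (i : K → ZFSet.{0}) (c : Vt K → ZFSet.{0})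
    (EZ : (K → Set W1) → ZFSet.{0}) (EC : Set W1 → (W1 → ℕ → K) → W1 → ZFSet.{0})
    (x y : ZFSet.{0}) : Set ZFSet.{0} :=
  {z | ∃ k, i k = x ∧ z = c (Vt.k k)} ∪ {z | ∃ k, c (Vt.k k) = x ∧ z = i k} ∪
    {z | ∃ η, i1 η = x ∧ z = c (Vt.o η)} ∪ {z | ∃ η, c (Vt.o η) = x ∧ z = i1 η} ∪
    {z | ∃ Z, c (Vt.z Z) = x ∧ z = EZ Z} ∪
    {z | ∃ C e γ, c (Vt.c C e) = x ∧ i1 γ = y ∧ z = EC C e γ}

theorem trf_f_countable {K : Type} {i : K → ZFSet.{0}} (hi : Function.Injective i)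
    {c : Vt K → ZFSet.{0}} (hc : Function.Injective c)
    (EZ : (K → Set W1) → ZFSet.{0}) (EC : Set W1 → (W1 → ℕ → K) → W1 → ZFSet.{0})
    (x y : ZFSet.{0}) : (trf_f i c EZ EC x y).Countable := by
  refine Countable.union (Countable.union (Countable.union (Countable.union
    (Countable.union ?_ ?_) ?_) ?_) ?_) ?_
  · refine Subsingleton.countable ?_
    rintro z ⟨k, h1, rfl⟩ z' ⟨k', h2, rfl⟩
    rw [hi (h1.trans h2.symm)]
  · refine Subsingleton.countable ?_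
    rintro z ⟨k, h1, rfl⟩ z' ⟨k', h2, rfl⟩
    have h3 := hc (h1.trans h2.symm)
    injection h3 with h3
    rw [h3]
  · refine Subsingleton.countable ?_
    rintro z ⟨k, h1, rfl⟩ z' ⟨k', h2, rfl⟩
    rw [i1_injective (h1.trans h2.symm)]
  · refine Subsingleton.countable ?_
    rintro z ⟨k, h1, rfl⟩ z' ⟨k', h2, rfl⟩
    have h3 := hc (h1.trans h2.symm)
    injection h3 with h3
    rw [h3]
  · refine Subsingleton.countable ?_
    rintro z ⟨k, h1, rfl⟩ z' ⟨k', h2, rfl⟩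
    have h3 := hc (h1.trans h2.symm)
    injection h3 with h3
    rw [h3]
  · refine Subsingleton.countable ?_
    rintro z ⟨C, e, γ, h1, h2, rfl⟩ z' ⟨C', e', γ', h3, h4, rfl⟩
    have h5 := hc (h1.trans h3.symm)
    injection h5 with h5 h6
    rw [h5, h6, i1_injective (h2.trans h4.symm)]

theorem sigLaw_of_good {X : ZFSet.{0}} {θ : Cardinal.{0}} (hw : w1 ⊆ X) (hθ : ℵ₀ ≤ θ)
    (hH : ctbl X ∈ H θ) {K : Type} (i : K → ZFSet.{0}) (hi : Function.Injective i)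
    (hr : ∀ z, z ∈ X ↔ ∃ x, i x = z) (hG : ∀ h : K → W1 → Set W1, Good h univ) :
    SigLaw X θ := by
  classical
  intro h0
  obtain ⟨h, hh⟩ : ∃ h : K → W1 → Set W1, h = fun x δ => h0 (i x) δ := ⟨_, rfl⟩
  obtain ⟨G, hGc, hGood⟩ := hG h
  have hXH : X ∈ H θ := X_mem_H hH
  have hcK : #K = X.card := card_of_bij i hi hr
  have hX1 : ℵ₁ ≤ X.card := card_w1.symm.le.trans (ZFSet.card_mono hw)
  have hθ' : ℵ₀ < θ := (aleph0_lt_of_w1_subset hw).trans (card_lt_of_H hXH)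
  obtain ⟨c, hc, hcH⟩ := exists_code_V θ K X hXH hcK.le hX1
  obtain ⟨EZ, hEZ⟩ : ∃ EZ : (K → Set W1) → ZFSet.{0}, EZ = fun Z =>
      ZFSet.sep (fun P => ∃ α : W1, (∃ ζ, ζ < α) ∧ (∀ η, i1 η ∈ P ↔ η < α) ∧
      ∀ x, i x ∈ P → α ∈ Z x) (ctbl X) := ⟨_, rfl⟩
  obtain ⟨EC, hEC⟩ : ∃ EC : Set W1 → (W1 → ℕ → K) → W1 → ZFSet.{0}, EC = fun C e γ =>
      ZFSet.sep (fun P => ∃ α ∈ C, γ < α ∧ (∀ η, i1 η ∈ P ↔ η < α) ∧
      ∀ m, i (e α m) ∈ P) (ctbl X) := ⟨_, rfl⟩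
  have hEZH : ∀ Z, EZ Z ∈ H θ := by
    intro Z
    rw [hEZ]
    exact H_subset hH fun z hz => (ZFSet.mem_sep.1 hz).1
  have hECH : ∀ C e γ, EC C e γ ∈ H θ := by
    intro C e γ
    rw [hEC]
    exact H_subset hH fun z hz => (ZFSet.mem_sep.1 hz).1
  have hi1H : ∀ η, i1 η ∈ H θ := fun η => i1_mem_H' hθ' η
  have hiX : ∀ x, i x ∈ X := fun x => (hr _).2 ⟨x, rfl⟩
  have hiH : ∀ x, i x ∈ H θ := fun x => H_trans hXH (hiX x)
  obtain ⟨Gh, hGh⟩ : ∃ Gh : Finset ZFSet.{0} → Set ZFSet.{0}, Gh = fun s =>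
      Gini s ∪ Gel s ∪ Gmap (fun x => i1 (dl (x : Set ZFSet.{0}))) s ∪ trf_G c G s ∪
        trf_op (trf_f i c EZ EC) s := ⟨_, rfl⟩
  have hGhc : ∀ s, (Gh s).Countable := by
    intro s
    rw [hGh]
    exact ((((Gini_countable s).union (Gel_countable s)).union (Gmap_countable _ s)).union
      (trf_G_countable hc hGc s)).union (trf_op_countable (trf_f_countable hi hc EZ EC) s)
  refine ⟨_, clubCl hθ hXH hGhc, ?_⟩
  rintro N ⟨hNel, hXN, hNcl⟩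
  have hNc : N.Countable := hNel.1
  have hNH : N ⊆ H θ := hNel.subset
  rw [hGh] at hNcl
  have c1 : Cl (H θ) Gini N := hNcl.mono fun s z hz => Or.inl (Or.inl (Or.inl (Or.inl hz)))
  have c2 : Cl (H θ) Gel N := hNcl.mono fun s z hz => Or.inl (Or.inl (Or.inl (Or.inr hz)))
  have c3 : Cl (H θ) (Gmap fun x => i1 (dl (x : Set ZFSet.{0}))) N :=
    hNcl.mono fun s z hz => Or.inl (Or.inl (Or.inr hz))
  have c4 : Cl (H θ) (trf_G c G) N := hNcl.mono fun s z hz => Or.inl (Or.inr hz)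
  have c5 : Cl (H θ) (trf_op (trf_f i c EZ EC)) N := hNcl.mono fun s z hz => Or.inr hz
  have htr : Tr N (dl N) := tr_dl hi1H hNc c1
  -- closure facts
  have f1 : ∀ k, i k ∈ N → c (Vt.k k) ∈ N := fun k hk =>
    trf_op_spec c5 hk hk (Or.inl (Or.inl (Or.inl (Or.inl (Or.inl ⟨k, rfl, rfl⟩))))) (hcH _)
  have f2 : ∀ k, c (Vt.k k) ∈ N → i k ∈ N := fun k hk =>
    trf_op_spec c5 hk hk (Or.inl (Or.inl (Or.inl (Or.inl (Or.inr ⟨k, rfl, rfl⟩))))) (hiH _)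
  have f3 : ∀ η, i1 η ∈ N → c (Vt.o η) ∈ N := fun k hk =>
    trf_op_spec c5 hk hk (Or.inl (Or.inl (Or.inl (Or.inr ⟨k, rfl, rfl⟩)))) (hcH _)
  have f4 : ∀ η, c (Vt.o η) ∈ N → i1 η ∈ N := fun k hk =>
    trf_op_spec c5 hk hk (Or.inl (Or.inl (Or.inr ⟨k, rfl, rfl⟩))) (hi1H _)
  have f5 : ∀ Z, c (Vt.z Z) ∈ N → EZ Z ∈ N := fun k hk =>
    trf_op_spec c5 hk hk (Or.inl (Or.inr ⟨k, rfl, rfl⟩)) (hEZH _)
  have f6 : ∀ C e γ, c (Vt.c C e) ∈ N → i1 γ ∈ N → EC C e γ ∈ N := fun C e γ hk hk' =>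
    trf_op_spec c5 hk hk' (Or.inr ⟨C, e, γ, rfl, rfl, rfl⟩) (hECH _ _ _)
  obtain ⟨M, hM⟩ : ∃ M : Set (Vt K), M = {v | c v ∈ N} := ⟨_, rfl⟩
  have hMm : ∀ v, v ∈ M ↔ c v ∈ N := fun v => by rw [hM]; rfl
  have hMc : M.Countable := by
    rw [hM]
    exact hNc.preimage hc
  have hMcl : Clv G M := by
    rw [hM]
    exact trf_clv hcH c4
  have hMtr : Trv M (dl N) := by
    intro η
    rw [hMm, ← htr η]
    exact ⟨f4 η, f3 η⟩
  -- facts about the elements of `N`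
  have g1 : ∀ P ∈ N, ∀ α : W1, (∀ η, i1 η ∈ P ↔ η < α) → α < dl N := by
    intro P hP α hα
    have h1 := Gmap_spec c3 hP (hi1H _)
    have h2 : dl (P : Set ZFSet.{0}) = α := dl_eq hα
    rw [h2] at h1
    exact (htr α).1 h1
  rcases hGood M hMc hMcl (dl N) (mem_univ _) hMtr with ⟨Z, hZM, hZ, hZh⟩ | ⟨C, e, hCM, hC, γ, hγ, hCh⟩
  · refine ⟨EZ Z, f5 Z ((hMm _).1 hZM), ?_, Or.inr ?_⟩
    · rw [hEZ]
      exact club_Z hw i hi hr Z hZ
    · intro P hP hPN hPs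
      rw [hEZ] at hP
      obtain ⟨hPc, α, hα0, hα, hαZ⟩ := ZFSet.mem_sep.1 hP
      have hPX := (mem_ctbl.1 hPc).1
      obtain ⟨-, y, hy, γ, hγ, hall⟩ := hPs
      obtain ⟨x, rfl⟩ := (hr y).1 (hPX hy)
      have hxN : i x ∈ N := Gel_spec c2 hPN (mem_ctbl.1 hPc).2 hy (hiH x)
      refine hZh x ((hMm _).2 (f1 x hxN)) α (hαZ x hy) (g1 P hPN α hα) ?_
      refine ⟨x, rfl, γ, (hα γ).1 hγ, ?_⟩
      intro β hγβ hβα
      rw [hh]
      exact hall β hγβ fun ζ hζ => ⟨ζ, le_rfl, (hα ζ).2 (hζ.trans_le hβα)⟩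
  · have hγN : i1 γ ∈ N := (htr γ).2 hγ
    refine ⟨EC C e γ, f6 C e γ ((hMm _).1 hCM) hγN, ?_, Or.inl ?_⟩
    · rw [hEC]
      exact club_C hw i hi hr C e hC γ
    · intro P hP hPN
      rw [hEC] at hP
      obtain ⟨hPc, α, hαC, hγα, hα, hαe⟩ := ZFSet.mem_sep.1 hP
      obtain ⟨x, ⟨m, rfl⟩, γ', hγ', hall⟩ := hCh α hαC hγα (g1 P hPN α hα)
      refine ⟨hPc, i (e α m), hαe m, γ', (hα γ').2 hγ', ?_⟩
      intro β hγβ hβ
      have hβα : β ≤ α := by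
        by_contra! hlt
        obtain ⟨η, h3, h4⟩ := hβ α hlt
        exact absurd ((hα η).1 h4) (not_lt.2 h3)
      have h5 := hall β hγβ hβα
      rw [hh] at h5
      exact h5

end Pool.Agent.H79.MC
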