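import Pool.Agent.H79.MC.Op
import Pool.Agent.H71.ZO.Reduce

/-!
# Row Zcz: the club of `[X]^ω` given by a function from `K` to clubs of `ω₁`

`i` is a bijection of `K` with the set of the elements of `X`; `i1 η` is the set coding `η : W1`
(`i1_injective`, `mem_w1`, `mem_ctbl`, `exists_ctbl`, `ZFSet.mem_sep`; `iUnion_mem_ctbl`,
`ZFSet.coe_iUnion`, `ZFSet.mem_iUnion` from `Reduce.lean`).

* `subset`: `ZFSet.mem_sep`.
* `closed`: `P n` increasing, with `α n` as in the definition.  `α n ≤ α (n+1)`: otherwise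
  `i1 (α (n+1)) ∈ P n ⊆ P (n+1)`, contradiction; so `α` is monotone.  Let `α'` be the least
  element of `{b | ∀ n, α n ≤ b}` (nonempty by `bdd_W1 (range α)`).  Then
  `i1 η ∈ ⋃ P n ↔ ∃ n, η < α n ↔ η < α'` (if `η < α'` then `η` is not an upper bound of the
  `α n`).  There is `ζ < α 0 ≤ α'`.  Let `i x ∈ ⋃ P n`, so `i x ∈ P n` for some `n` and
  `i x ∈ P m`, `α m ∈ Z x` for all `m ≥ n`.  If `α' = α m` for some `m ≥ n`, done.  Otherwise
  `α m < α'` for all `m` (for `m < n` too, by monotonicity), and `Lim (Z x) α'`: for `β < α'` there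
  is `m` with `β < α m`, and `m ≥ n` may be assumed; so `α' ∈ Z x` as `Z x` is closed.
* `unbounded`: let `Q ∈ ctbl X`.  Choose `nx x β ∈ Z x`, `β < nx x β`, and `k η : K` with
  `i (k η) = i1 η` (`w1 ⊆ X`).  Let
  `F ζ = {η | i1 η ∈ Q} ∪ {nx x ζ | i x ∈ Q} ∪ {nx (k η) ζ | η ≤ ζ} ∪ {ζ⁺}` (`ζ⁺ > ζ` chosen);
  it is countable (`Q` is countable, `i` and `i1` are injective, `Iic ζ` is countable).  Let `α` be
  a closure point of `F` (`clb_cp F` is unbounded, so it is nonempty).  Let `P` be the set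
  `Q ∪ {i1 η | η < α}` (`exists_ctbl`).  `i1 η ∈ P ↔ η < α`, since `i1 η ∈ Q` gives
  `η ∈ F ζ` for some `ζ < α`.  If `i x ∈ P`: if `i x ∈ Q`, then `Lim (Z x) α` (for `β < α`,
  `nx x β ∈ F β`, so `< α`), so `α ∈ Z x`.  If `i x = i1 η`, `η < α`, then `x = k η` and for
  `β < α`, with `ζ = max β η`, `nx (k η) ζ ∈ F ζ`, so `β < nx (k η) ζ < α`: `Lim (Z x) α`.
-/

namespace Pool.Agent.H79.MC

open Cardinal Ordinal Set
open Pool.Agent.Results.MP_4b9105_lc.CanonicalBounding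
open Pool.Agent.H71.ZO

theorem club_Z {X : ZFSet.{0}} (hw : w1 ⊆ X) {K : Type} (i : K → ZFSet.{0})
    (hi : Function.Injective i) (hr : ∀ z, z ∈ X ↔ ∃ x, i x = z) (Z : K → Set W1)
    (hZ : ∀ x, Clb (Z x)) :
    IsClubX X (ZFSet.sep (fun P => ∃ α : W1, (∃ ζ, ζ < α) ∧ (∀ η, i1 η ∈ P ↔ η < α) ∧
      ∀ x, i x ∈ P → α ∈ Z x) (ctbl X)) := by
  classical
  refine ⟨fun z hz => (ZFSet.mem_sep.1 hz).1, ?_, ?_⟩
  · intro P hmono hP
    have hP' := fun n => ZFSet.mem_sep.1 (hP n)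
    choose hc α h0 h1 h2 using hP'
    have hsub : ∀ n m, n ≤ m → P n ⊆ P m := by
      intro n m hnm
      induction m, hnm using Nat.le_induction with
      | base => exact fun z hz => hz
      | succ m _ ih => exact fun z hz => hmono m (ih hz)
    have hmon : Monotone α := by
      refine monotone_nat_of_le_succ fun n => ?_
      by_contra hlt
      have hlt' := not_le.1 hlt
      exact lt_irrefl _ ((h1 (n + 1) (α (n + 1))).1 (hmono n ((h1 n (α (n + 1))).2 hlt')))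
    obtain ⟨b, hb⟩ := bdd_W1 (range α) (countable_range α)
    obtain ⟨α', hα', hmin⟩ := (wellFounded_lt (α := W1)).has_min {b : W1 | ∀ n, α n ≤ b}
      ⟨b, fun n => (hb _ ⟨n, rfl⟩).le⟩
    have hlt : ∀ η, η < α' → ∃ n, η < α n := by
      intro η hη
      by_contra hno
      push Not at hno
      exact hmin η hno hη
    refine ZFSet.mem_sep.2 ⟨iUnion_mem_ctbl P hc, α', ?_, ?_, ?_⟩
    · obtain ⟨ζ, hζ⟩ := h0 0
      exact ⟨ζ, hζ.trans_le (hα' 0)⟩
    · intro η
      rw [ZFSet.mem_iUnion]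
      constructor
      · rintro ⟨n, hn⟩
        exact ((h1 n η).1 hn).trans_le (hα' n)
      · intro hη
        obtain ⟨n, hn⟩ := hlt η hη
        exact ⟨n, (h1 n η).2 hn⟩
    · intro x hx
      rw [ZFSet.mem_iUnion] at hx
      obtain ⟨n, hn⟩ := hx
      by_cases hm : ∃ m, n ≤ m ∧ α' = α m
      · obtain ⟨m, hnm, hm⟩ := hm
        rw [hm]
        exact h2 m x (hsub n m hnm hn)
      · push Not at hm
        refine (hZ x).1 α' ⟨⟨α n, lt_of_le_of_ne (hα' n) (hm n le_rfl).symm⟩, ?_⟩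
        intro β hβ
        obtain ⟨m, hβm⟩ := hlt β hβ
        refine ⟨α (max m n), h2 _ x (hsub n _ (le_max_right _ _) hn),
          hβm.trans_le (hmon (le_max_left _ _)), ?_⟩
        exact lt_of_le_of_ne (hα' _) (hm _ (le_max_right _ _)).symm
  · intro Q hQ
    obtain ⟨hQX, hQc⟩ := mem_ctbl.1 hQ
    choose nx hnx1 hnx2 using fun x => (hZ x).2
    have hw1 : ∀ η, ∃ x, i x = i1 η := fun η => (hr _).1 (hw (mem_w1.2 ⟨η, rfl⟩))
    choose k hk using hw1
    choose pl hpl using exists_gt_W1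
    obtain ⟨F, hFe⟩ : ∃ F : W1 → Set W1, F = fun ζ => {η | i1 η ∈ Q} ∪
      ((fun x => nx x ζ) '' {x | i x ∈ Q}) ∪ ((fun η => nx (k η) ζ) '' Iic ζ) := ⟨_, rfl⟩
    have hF : ∀ ζ, (F ζ).Countable := by
      intro ζ
      rw [hFe]
      refine Countable.union (Countable.union ?_ (Countable.image ?_ _)) (Countable.image ?_ _)
      · exact hQc.preimage i1_injective
      · exact hQc.preimage hi
      · exact (countable_Iio_W1 (pl ζ)).mono fun η hη => lt_of_le_of_lt hη (hpl ζ)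
    obtain ⟨α, ⟨hα0, hα⟩, -⟩ := (clb_cp F hF).2 (Classical.arbitrary W1)
    have hA : {z : ZFSet.{0} | z ∈ Q ∨ ∃ η, η < α ∧ i1 η = z} ⊆ (X : Set ZFSet.{0}) := by
      rintro z (hz | ⟨η, -, rfl⟩)
      · exact hQX hz
      · exact hw (mem_w1.2 ⟨η, rfl⟩)
    have hAc : {z : ZFSet.{0} | z ∈ Q ∨ ∃ η, η < α ∧ i1 η = z}.Countable := by
      refine Countable.mono ?_ (hQc.union ((countable_Iio_W1 α).image i1))
      rintro z (hz | ⟨η, hη, rfl⟩)
      · exact Or.inl hz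
      · exact Or.inr ⟨η, hη, rfl⟩
    obtain ⟨P, hPX, hP⟩ := exists_ctbl _ hA hAc
    refine ⟨P, ZFSet.mem_sep.2 ⟨hPX, α, hα0, ?_, ?_⟩, fun z hz => (hP z).2 (Or.inl hz)⟩
    · intro η
      rw [hP]
      constructor
      · rintro (h | ⟨η', h, he⟩)
        · obtain ⟨ζ, hζ⟩ := hα0
          refine hα ζ hζ η ?_
          rw [hFe]
          exact Or.inl (Or.inl h)
        · rwa [i1_injective he] at h
      · intro h
        exact Or.inr ⟨η, h, rfl⟩
    · intro x hx
      refine (hZ x).1 α ⟨hα0, ?_⟩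
      intro β hβ
      rcases (hP _).1 hx with h | ⟨η, h, he⟩
      · refine ⟨nx x β, hnx1 x β, hnx2 x β, hα β hβ _ ?_⟩
        rw [hFe]
        exact Or.inl (Or.inr ⟨x, h, rfl⟩)
      · have hkx : k η = x := hi ((hk η).trans he)
        refine ⟨nx x (max β η), hnx1 x _, (le_max_left β η).trans_lt (hnx2 x _),
          hα (max β η) (max_lt hβ h) _ ?_⟩
        rw [hFe]
        exact Or.inr ⟨η, le_max_right β η, by rw [← hkx]⟩

end Pool.Agent.H79.MC
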